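import Mathlib
import Pool.Agent.H5.GD.Bridge

/-!
# Derivations of the complex numbers separate the non algebraic numbers
-/

noncomputable section

namespace GD

open Polynomial

/-- a copy of the dual numbers without the canonical algebra structures -/
def DN (L : Type) : Type := TrivSqZeroExt L L

namespace DN

variable {L : Type} [Field L]

instance : CommRing (DN L) := inferInstanceAs (CommRing (TrivSqZeroExt L L))

/-- constant part -/
def fst : DN L →+* L := (TrivSqZeroExt.fstHom L L L : TrivSqZeroExt L L →+* L)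

/-- the infinitesimal part -/
def snd (z : DN L) : L := TrivSqZeroExt.snd (z : TrivSqZeroExt L L)

/-- the constants -/
def inl : L →+* DN L := (TrivSqZeroExt.inlHom L L : L →+* TrivSqZeroExt L L)

/-- the infinitesimal -/
def eps : DN L := (TrivSqZeroExt.inr (1 : L) : TrivSqZeroExt L L)

theorem snd_add (a b : DN L) : snd (a + b) = snd a + snd b := rfl

theorem snd_zero : snd (0 : DN L) = 0 := rfl

theorem snd_mul (a b : DN L) : snd (a * b) = fst a * snd b + snd a * fst b :=
  TrivSqZeroExt.snd_mul (R := L) (M := L) a b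

theorem fst_inl (a : L) : fst (inl a) = a := rfl

theorem snd_inl (a : L) : snd (inl a) = 0 := rfl

theorem fst_eps : fst (eps : DN L) = 0 := rfl

theorem snd_eps : snd (eps : DN L) = 1 := rfl

theorem ext {a b : DN L} (h1 : fst a = fst b) (h2 : snd a = snd b) : a = b :=
  TrivSqZeroExt.ext h1 h2

end DN

/-- A transcendental element has a nonzero derivative for some derivation. -/
theorem exists_der_aux {k L : Type} [Field k] [CharZero k] [Field L] [Algebra k L] (x : L)
    (hx : Transcendental k x) : ∃ δ : Derivation k L L, δ x = 1 := by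
  letI a1 : Algebra k[X] L := (aeval x : k[X] →ₐ[k] L).toRingHom.toAlgebra
  have hmap : ∀ p : k[X], algebraMap k[X] L p = aeval x p := fun p => rfl
  haveI i1 : IsScalarTower k k[X] L := IsScalarTower.of_algebraMap_eq fun c => by
    rw [hmap, Polynomial.algebraMap_apply, Algebra.algebraMap_self, RingHom.id_apply, aeval_C]
  haveI i2 : FaithfulSMul k[X] L :=
    (faithfulSMul_iff_algebraMap_injective _ _).2 (transcendental_iff_injective.1 hx)
  letI a2 : Algebra (FractionRing k[X]) L := FractionRing.liftAlgebra _ _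
  haveI i3 : IsScalarTower k[X] (FractionRing k[X]) L := FractionRing.isScalarTower_liftAlgebra _ _
  haveI i4 : CharZero (FractionRing k[X]) :=
    charZero_of_injective_algebraMap (IsFractionRing.injective k[X] (FractionRing k[X]))
  haveI i5 : Algebra.FormallySmooth (FractionRing k[X]) L := by
    obtain ⟨s, hs⟩ := exists_isTranscendenceBasis (FractionRing k[X]) L
    haveI : Algebra.IsAlgebraic (IntermediateField.adjoin (FractionRing k[X])
      (Set.range (Subtype.val : s → L))) L := hs.isAlgebraic_field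
    exact Algebra.FormallySmooth.of_algebraicIndependent_of_isSeparable hs.1
  haveI i6 : Algebra.FormallySmooth k[X] (FractionRing k[X]) :=
    .of_isLocalization (nonZeroDivisors _)
  haveI i7 : Algebra.FormallySmooth k[X] L := .comp _ (FractionRing k[X]) _
  letI a3 : Algebra k[X] (DN L) :=
    (eval₂RingHom (DN.inl.comp (algebraMap k L)) (DN.inl x + DN.eps)).toAlgebra
  have hmap3 : ∀ p : k[X], algebraMap k[X] (DN L) p =
    eval₂ (DN.inl.comp (algebraMap k L)) (DN.inl x + DN.eps) p := fun p => rfl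
  have hfst : ∀ p : k[X], DN.fst (algebraMap k[X] (DN L) p) = algebraMap k[X] L p := by
    intro p
    rw [hmap3, Polynomial.hom_eval₂, hmap, aeval_def]
    congr 1
    rw [map_add, DN.fst_inl, DN.fst_eps, add_zero]
  let g : DN L →ₐ[k[X]] L := { (DN.fst : DN L →+* L) with commutes' := hfst }
  have hgf : ∀ z, g z = DN.fst z := fun z => rfl
  have hg : Function.Surjective g := fun c => ⟨DN.inl c, rfl⟩
  have hnil : IsNilpotent (RingHom.ker (g : DN L →+* L)) := by
    refine ⟨2, ?_⟩
    rw [pow_two, Ideal.zero_eq_bot, eq_bot_iff, Ideal.mul_le]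
    intro r hr t ht
    rw [RingHom.mem_ker] at hr ht
    have hr' : DN.fst r = 0 := hr
    have ht' : DN.fst t = 0 := ht
    rw [Ideal.mem_bot]
    apply DN.ext
    · rw [map_mul, hr', zero_mul, map_zero]
    · rw [DN.snd_mul, hr', ht', zero_mul, mul_zero, add_zero, DN.snd_zero]
  let f : L →ₐ[k[X]] DN L :=
    Algebra.FormallySmooth.liftOfSurjective (AlgHom.id k[X] L) g hg hnil
  have hf : ∀ c, DN.fst (f c) = c := fun c =>
    Algebra.FormallySmooth.liftOfSurjective_apply (AlgHom.id k[X] L) g hg hnil c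
  have hconst : ∀ c : k, f (algebraMap k L c) = DN.inl (algebraMap k L c) := by
    intro c
    have h1 := f.commutes (C c)
    rw [hmap, aeval_C, hmap3, eval₂_C] at h1
    exact h1
  have hX : f x = DN.inl x + DN.eps := by
    have h1 := f.commutes X
    rw [hmap, aeval_X, hmap3, eval₂_X] at h1
    exact h1
  have hmul : ∀ a b, DN.snd (f (a * b)) = a * DN.snd (f b) + b * DN.snd (f a) := by
    intro a b
    rw [map_mul, DN.snd_mul, hf, hf]
    ring
  refine ⟨Derivation.mk' { toFun := fun c => DN.snd (f c), map_add' := ?_, map_smul' := ?_ } ?_, ?_⟩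
  · intro a b
    rw [map_add, DN.snd_add]
  · intro c a
    rw [Algebra.smul_def, hmul, hconst, DN.snd_inl, mul_zero, add_zero, RingHom.id_apply,
      Algebra.smul_def]
  · intro a b
    exact hmul a b
  · change DN.snd (f x) = 1
    rw [hX, DN.snd_add, DN.snd_inl, DN.snd_eps, zero_add]

/-- A transcendental complex number has derivative one for some derivation over the algebraic
numbers. -/
theorem exists_der (x : ℂ) (hx : ¬ IsAlgebraic ℚ x) : ∃ δ : Derivation Qbar ℂ ℂ, δ x = 1 := by
  apply exists_der_aux x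
  intro h
  haveI : Algebra.IsAlgebraic ℚ Qbar := algebraicClosure.isAlgebraic ℚ ℂ
  exact hx (h.restrictScalars ℚ)

/-- The common kernel of all derivations over the algebraic numbers. -/
theorem isAlgebraic_of_der {x : ℂ} (h : ∀ δ : Derivation Qbar ℂ ℂ, δ x = 0) : IsAlgebraic ℚ x := by
  by_contra hx
  obtain ⟨δ, hδ⟩ := exists_der x hx
  rw [h δ] at hδ
  exact zero_ne_one hδ

theorem mem_Qbar_of_der {x : ℂ} (h : ∀ δ : Derivation Qbar ℂ ℂ, δ x = 0) : x ∈ Qbar :=
  mem_algebraicClosure_iff.2 (isAlgebraic_of_der h)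

theorem der_of_mem_Qbar (δ : Derivation Qbar ℂ ℂ) {x : ℂ} (h : x ∈ Qbar) : δ x = 0 :=
  δ.map_algebraMap (⟨x, h⟩ : Qbar)

theorem der_of_isAlgebraic (δ : Derivation Qbar ℂ ℂ) {x : ℂ} (h : IsAlgebraic ℚ x) : δ x = 0 :=
  der_of_mem_Qbar δ (mem_algebraicClosure_iff.2 h)

/-- Logarithmic derivative of an integral power. -/
theorem der_zpow (δ : Derivation Qbar ℂ ℂ) {x : ℂ} (hx : x ≠ 0) (n : ℤ) :
    δ (x ^ n) / x ^ n = n * (δ x / x) := by
  have h1 : x ^ n ≠ 0 := zpow_ne_zero n hx
  rw [Derivation.leibniz_zpow, zpow_sub_one₀ hx, smul_eq_mul, zsmul_eq_mul]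
  field_simp

theorem der_div_mul (δ : Derivation Qbar ℂ ℂ) {x y : ℂ} (hx : x ≠ 0) (hy : y ≠ 0) :
    δ (x * y) / (x * y) = δ x / x + δ y / y := by
  rw [Derivation.leibniz, smul_eq_mul, smul_eq_mul]
  field_simp
  ring

theorem der_prod (δ : Derivation Qbar ℂ ℂ) {α : Type*} (s : Finset α) (x : α → ℂ)
    (hx : ∀ i ∈ s, x i ≠ 0) :
    δ (∏ i ∈ s, x i) / (∏ i ∈ s, x i) = ∑ i ∈ s, δ (x i) / x i := by
  classical
  induction s using Finset.induction_on with
  | empty => simp
  | insert a s ha ih =>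
    rw [Finset.prod_insert ha, Finset.sum_insert ha,
      der_div_mul δ (hx a (Finset.mem_insert_self a s))
        (Finset.prod_ne_zero_iff.2 fun i hi => hx i (Finset.mem_insert_of_mem hi)),
      ih fun i hi => hx i (Finset.mem_insert_of_mem hi)]

section cls

variable {V : Type*} [AddCommGroup V] [Module ℚ V] {cls : ℂ → V}

theorem cls_zpow (hΓ : GammaSpec V cls) {x : ℂ} (hx : x ≠ 0) (n : ℤ) :
    cls (x ^ n) = (n : ℚ) • cls x := by
  cases n with
  | ofNat n =>
    rw [Int.ofNat_eq_natCast, zpow_natCast, cls_pow hΓ x hx n]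
    simp
  | negSucc n =>
    have h1 : x ^ (Int.negSucc n) * x ^ (n + 1) = 1 := by
      rw [zpow_negSucc, inv_mul_cancel₀ (pow_ne_zero _ hx)]
    have h2 := hΓ.mul (x ^ (Int.negSucc n)) (x ^ (n + 1)) (zpow_ne_zero _ hx) (pow_ne_zero _ hx)
    rw [h1, cls_one hΓ, cls_pow hΓ x hx] at h2
    have h3 : cls (x ^ (Int.negSucc n)) = -(((n + 1 : ℕ) : ℚ) • cls x) :=
      eq_neg_of_add_eq_zero_left h2.symm
    rw [h3, ← neg_smul]
    rfl

/-- Linear relations between logarithmic derivatives give relations between classes. -/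
theorem cls_of_dlog (hΓ : GammaSpec V cls) {α : Type*} (s : Finset α) (x : α → ℂ) (q : α → ℚ)
    (hx : ∀ i ∈ s, x i ≠ 0)
    (h : ∀ δ : Derivation Qbar ℂ ℂ, ∑ i ∈ s, (q i : ℂ) * (δ (x i) / x i) = 0) :
    ∑ i ∈ s, q i • cls (x i) = 0 := by
  classical
  -- common denominator
  obtain ⟨N, hN0, n, hn⟩ : ∃ N : ℕ, N ≠ 0 ∧ ∃ n : α → ℤ, ∀ i ∈ s, (N : ℚ) * q i = n i := by
    refine ⟨∏ i ∈ s, (q i).den, Finset.prod_ne_zero_iff.2 fun i _ => (q i).den_nz,
      fun i => (∏ j ∈ s.erase i, ((q j).den : ℤ)) * (q i).num, ?_⟩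
    intro i hi
    rw [← Finset.mul_prod_erase s (fun i => (q i).den) hi]
    push_cast
    have h1 : ((q i).den : ℚ) * q i = (q i).num := by
      rw [mul_comm]
      exact Rat.mul_den_eq_num (q i)
    rw [mul_comm ((q i).den : ℚ), mul_assoc, h1]
  have hy : ∀ i ∈ s, x i ^ n i ≠ 0 := fun i hi => zpow_ne_zero _ (hx i hi)
  have hY : (∏ i ∈ s, x i ^ n i) ≠ 0 := Finset.prod_ne_zero_iff.2 hy
  have h1 : IsAlgebraic ℚ (∏ i ∈ s, x i ^ n i) := by
    apply isAlgebraic_of_der
    intro δ
    have h2 := der_prod δ s (fun i => x i ^ n i) hy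
    have h3 : ∑ i ∈ s, δ (x i ^ n i) / x i ^ n i = 0 := by
      have h4 : ∑ i ∈ s, δ (x i ^ n i) / x i ^ n i
          = (N : ℂ) * ∑ i ∈ s, (q i : ℂ) * (δ (x i) / x i) := by
        rw [Finset.mul_sum]
        refine Finset.sum_congr rfl fun i hi => ?_
        rw [der_zpow δ (hx i hi), ← mul_assoc]
        congr 1
        exact_mod_cast congrArg (fun t : ℚ => (t : ℂ)) (hn i hi).symm
      rw [h4, h δ, mul_zero]
    rw [h3, div_eq_zero_iff] at h2
    exact h2.resolve_right hY
  have h2 : cls (∏ i ∈ s, x i ^ n i) = 0 := (hΓ.zero_iff _ hY).2 h1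
  rw [cls_prod hΓ s _ hy] at h2
  have h3 : (N : ℚ) • ∑ i ∈ s, q i • cls (x i) = 0 := by
    rw [← h2, Finset.smul_sum]
    refine Finset.sum_congr rfl fun i hi => ?_
    rw [cls_zpow hΓ (hx i hi), smul_smul, hn i hi]
  have hN : (N : ℚ) ≠ 0 := by exact_mod_cast hN0
  exact (smul_eq_zero.1 h3).resolve_left hN

end cls

end GD
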