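import Mathlib
import Pool.Agent.H44.GD.Der

/-!
# The two connections of a Betti, de Rham and Hodge structure

For a derivation `δ` of `ℂ` over the algebraic numbers, `nabB δ` and `nabD δ` are the additive maps
of `W` which apply `δ` to the coordinates with respect to the rational form and to the form over
the algebraic numbers, and `A δ = nabB δ - nabD δ` is `ℂ`-linear.
-/

noncomputable section

namespace GD

open Complex

section general

variable {k : Type} [Field k] [Algebra k ℂ] {W : Type} [AddCommGroup W] [Module ℂ W] [Module k W]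
  [IsScalarTower k ℂ W] {P : Submodule k W}

/-- `δ` applied to the coordinates with respect to the form `P`. -/
def nab (hP : IsBaseChange ℂ P.subtype) (δ : ℂ →ₗ[k] ℂ) : W →+ W :=
  (hP.equiv : TensorProduct k ℂ P ≃ₗ[ℂ] W).toAddEquiv.toAddMonoidHom.comp
    ((LinearMap.rTensor P δ).toAddMonoidHom.comp
      (hP.equiv : TensorProduct k ℂ P ≃ₗ[ℂ] W).symm.toAddEquiv.toAddMonoidHom)

theorem nab_apply (hP : IsBaseChange ℂ P.subtype) (δ : ℂ →ₗ[k] ℂ) (w : W) :
    nab hP δ w = hP.equiv (LinearMap.rTensor P δ (hP.equiv.symm w)) := rfl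

theorem nab_smul_mem (hP : IsBaseChange ℂ P.subtype) (δ : ℂ →ₗ[k] ℂ) (c : ℂ) (b : P) :
    nab hP δ (c • (b : W)) = δ c • (b : W) := by
  have h1 : hP.equiv (c ⊗ₜ[k] b) = c • (b : W) := hP.equiv_tmul c b
  have h2 : hP.equiv (δ c ⊗ₜ[k] b) = δ c • (b : W) := hP.equiv_tmul (δ c) b
  rw [nab_apply, ← h1, LinearEquiv.symm_apply_apply, LinearMap.rTensor_tmul, h2]

theorem nab_leibniz (hP : IsBaseChange ℂ P.subtype) (δ : Derivation k ℂ ℂ) (c : ℂ) (w : W) :
    nab hP (δ : ℂ →ₗ[k] ℂ) (c • w) = δ c • w + c • nab hP (δ : ℂ →ₗ[k] ℂ) w := by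
  revert c
  refine hP.inductionOn w
    (fun w => ∀ c : ℂ, nab hP (δ : ℂ →ₗ[k] ℂ) (c • w) = δ c • w + c • nab hP (δ : ℂ →ₗ[k] ℂ) w)
    ?_ ?_ ?_ ?_
  · intro c
    simp
  · intro b c
    have h1 := nab_smul_mem hP (δ : ℂ →ₗ[k] ℂ) c b
    have h2 := nab_smul_mem hP (δ : ℂ →ₗ[k] ℂ) 1 b
    have h3 : (δ : ℂ →ₗ[k] ℂ) 1 = 0 := δ.map_one_eq_zero
    rw [h3, one_smul, zero_smul] at h2
    rw [Submodule.subtype_apply, h1, h2, smul_zero, add_zero]
    rfl
  · intro s n ih c
    rw [smul_smul, ih (c * s), ih s, Derivation.leibniz]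
    simp only [smul_eq_mul, add_smul, smul_add, smul_smul]
    rw [mul_comm s (δ c)]
    abel
  · intro n₁ n₂ h1 h2 c
    rw [smul_add, map_add, map_add, h1, h2, smul_add, smul_add]
    abel

theorem nab_mem (hP : IsBaseChange ℂ P.subtype) (δ : Derivation k ℂ ℂ) {w : W} (hw : w ∈ P) :
    nab hP (δ : ℂ →ₗ[k] ℂ) w = 0 := by
  have h2 := nab_smul_mem hP (δ : ℂ →ₗ[k] ℂ) 1 ⟨w, hw⟩
  have h3 : (δ : ℂ →ₗ[k] ℂ) 1 = 0 := δ.map_one_eq_zero
  rw [h3, one_smul, zero_smul] at h2
  exact h2

/-- A basis of the form is a basis of the complex space. -/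
def formBasis (hP : IsBaseChange ℂ P.subtype) {ι : Type*} (b : Module.Basis ι k P) :
    Module.Basis ι ℂ W :=
  (b.baseChange ℂ).map hP.equiv

theorem formBasis_apply (hP : IsBaseChange ℂ P.subtype) {ι : Type*} (b : Module.Basis ι k P)
    (i : ι) : formBasis hP b i = (b i : W) := by
  rw [formBasis, Module.Basis.map_apply, Module.Basis.baseChange_apply]
  have h1 : hP.equiv ((1 : ℂ) ⊗ₜ[k] b i) = (1 : ℂ) • (b i : W) := hP.equiv_tmul 1 (b i)
  rw [h1, one_smul]

theorem formBasis_repr_mem (hP : IsBaseChange ℂ P.subtype) {ι : Type*} (b : Module.Basis ι k P)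
    (p : P) (i : ι) : (formBasis hP b).repr (p : W) i = algebraMap k ℂ (b.repr p i) := by
  have h1 : (formBasis hP b).repr (p : W) = (b.repr p).mapRange (algebraMap k ℂ) (map_zero _) := by
    apply (formBasis hP b).repr.symm.injective
    rw [LinearEquiv.symm_apply_apply, Module.Basis.repr_symm_apply, Finsupp.linearCombination_apply,
      Finsupp.sum_mapRange_index (h := fun i a => a • formBasis hP b i) (fun i => zero_smul _ _)]
    conv_lhs => rw [← b.linearCombination_repr p, Finsupp.linearCombination_apply]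
    rw [Finsupp.sum, Finsupp.sum, AddSubmonoidClass.coe_finset_sum]
    refine Finset.sum_congr rfl fun i _ => ?_
    rw [formBasis_apply, Submodule.coe_smul, algebraMap_smul]
  rw [h1, Finsupp.mapRange_apply]

theorem formBasis_repr_nab (hP : IsBaseChange ℂ P.subtype) {ι : Type*} (b : Module.Basis ι k P)
    (δ : Derivation k ℂ ℂ) (w : W) (i : ι) :
    (formBasis hP b).repr (nab hP (δ : ℂ →ₗ[k] ℂ) w) i = δ ((formBasis hP b).repr w i) := by
  refine hP.inductionOn w (fun w => (formBasis hP b).repr (nab hP (δ : ℂ →ₗ[k] ℂ) w) i =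
    δ ((formBasis hP b).repr w i)) ?_ ?_ ?_ ?_
  · simp
  · intro p
    rw [Submodule.subtype_apply, nab_mem hP δ p.2, formBasis_repr_mem, δ.map_algebraMap]
    simp
  · intro s n ih
    rw [nab_leibniz, map_add, map_smul, map_smul, map_smul, Finsupp.add_apply, Finsupp.smul_apply,
      Finsupp.smul_apply, Finsupp.smul_apply, ih, smul_eq_mul, smul_eq_mul, smul_eq_mul,
      Derivation.leibniz, smul_eq_mul, smul_eq_mul]
    ring
  · intro n₁ n₂ h1 h2
    rw [map_add, map_add, Finsupp.add_apply, h1, h2, map_add, Finsupp.add_apply, map_add]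

/-- Coordinates of the elements of the form. -/
theorem mem_form_of_repr (hP : IsBaseChange ℂ P.subtype) {ι : Type*} (b : Module.Basis ι k P)
    {w : W} (h : ∀ i, ∃ a : k, (formBasis hP b).repr w i = algebraMap k ℂ a) : w ∈ P := by
  rw [← (formBasis hP b).linearCombination_repr w, Finsupp.linearCombination_apply]
  refine Submodule.sum_mem _ fun i _ => ?_
  obtain ⟨a, ha⟩ := h i
  dsimp only
  rw [ha, formBasis_apply, algebraMap_smul]
  exact P.smul_mem _ (b i).2

end general

variable (S : Str) (δ : Derivation Qbar ℂ ℂ)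

/-- the derivation over the rational numbers -/
def derQ : Derivation ℚ ℂ ℂ := δ.restrictScalars ℚ

theorem derQ_apply (c : ℂ) : derQ δ c = δ c := rfl

/-- `δ` on the coordinates with respect to the rational form. -/
def Str.nabB : S.W →+ S.W := nab S.B_form (derQ δ : ℂ →ₗ[ℚ] ℂ)

/-- `δ` on the coordinates with respect to the form over the algebraic numbers. -/
def Str.nabD : S.W →+ S.W := nab S.D_form (δ : ℂ →ₗ[Qbar] ℂ)

theorem Str.nabB_smul (c : ℂ) (w : S.W) :
    S.nabB δ (c • w) = δ c • w + c • S.nabB δ w := nab_leibniz S.B_form (derQ δ) c w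

theorem Str.nabD_smul (c : ℂ) (w : S.W) :
    S.nabD δ (c • w) = δ c • w + c • S.nabD δ w := nab_leibniz S.D_form δ c w

theorem Str.nabB_B {w : S.W} (hw : w ∈ S.B) : S.nabB δ w = 0 := nab_mem S.B_form (derQ δ) hw

theorem Str.nabD_D {w : S.W} (hw : w ∈ S.D) : S.nabD δ w = 0 := nab_mem S.D_form δ hw

/-- The difference of the two connections. -/
def Str.A : Module.End ℂ S.W where
  toFun w := S.nabB δ w - S.nabD δ w
  map_add' x y := by
    rw [map_add, map_add]
    abel
  map_smul' c x := by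
    rw [S.nabB_smul, S.nabD_smul, RingHom.id_apply, smul_sub]
    abel

theorem Str.A_apply (w : S.W) : S.A δ w = S.nabB δ w - S.nabD δ w := rfl

theorem Str.A_D {w : S.W} (hw : w ∈ S.D) : S.A δ w = S.nabB δ w := by
  rw [S.A_apply, S.nabD_D δ hw, sub_zero]

theorem Str.A_B {w : S.W} (hw : w ∈ S.B) : S.A δ w = -S.nabD δ w := by
  rw [S.A_apply, S.nabB_B δ hw, zero_sub]

/-- The vectors of the rational form with algebraic coefficients. -/
def Str.Bbar : Submodule Qbar S.W := Submodule.span Qbar (S.B : Set S.W)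

theorem Str.B_le_Bbar {w : S.W} (hw : w ∈ S.B) : w ∈ S.Bbar := Submodule.subset_span hw

theorem Qbar_smul (a : Qbar) (w : S.W) : a • w = (a : ℂ) • w := rfl

theorem Str.nabB_Bbar {w : S.W} (hw : w ∈ S.Bbar) : S.nabB δ w = 0 := by
  induction hw using Submodule.span_induction with
  | mem x hx => exact S.nabB_B δ hx
  | zero => exact map_zero _
  | add x y _ _ hx hy => rw [map_add, hx, hy, add_zero]
  | smul a x _ hx =>
    rw [Qbar_smul, S.nabB_smul, hx, smul_zero, add_zero, der_of_mem_Qbar δ a.2, zero_smul]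

/-- Vectors killed by all `nabD δ` are de Rham vectors. -/
theorem Str.mem_D_of_nabD {w : S.W} (h : ∀ δ : Derivation Qbar ℂ ℂ, S.nabD δ w = 0) :
    w ∈ S.D := by
  let b := Module.Free.chooseBasis Qbar S.D
  apply mem_form_of_repr S.D_form b
  intro i
  have h1 : (formBasis S.D_form b).repr w i ∈ Qbar := by
    apply mem_Qbar_of_der
    intro δ
    rw [← formBasis_repr_nab S.D_form b δ w i]
    have h2 : nab S.D_form (δ : ℂ →ₗ[Qbar] ℂ) w = 0 := h δ
    rw [h2, map_zero, Finsupp.zero_apply]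
  exact ⟨⟨_, h1⟩, rfl⟩

/-- Vectors killed by all `nabB δ` are rational vectors with algebraic coefficients. -/
theorem Str.mem_Bbar_of_nabB {w : S.W} (h : ∀ δ : Derivation Qbar ℂ ℂ, S.nabB δ w = 0) :
    w ∈ S.Bbar := by
  let b := Module.Free.chooseBasis ℚ S.B
  rw [← (formBasis S.B_form b).linearCombination_repr w, Finsupp.linearCombination_apply]
  refine Submodule.sum_mem _ fun i _ => ?_
  have h1 : (formBasis S.B_form b).repr w i ∈ Qbar := by
    apply mem_Qbar_of_der
    intro δ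
    have h3 := formBasis_repr_nab S.B_form b (derQ δ) w i
    have h2 : nab S.B_form (derQ δ : ℂ →ₗ[ℚ] ℂ) w = 0 := h δ
    rw [h2, map_zero, Finsupp.zero_apply] at h3
    exact h3.symm
  dsimp only
  rw [formBasis_apply]
  exact S.Bbar.smul_mem (⟨_, h1⟩ : Qbar) (S.B_le_Bbar (b i).2)

end GD
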