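import Mathlib
import Pool.Agent.H44.GD.Conn
import Pool.Agent.H26.DT.FamStr

/-!
# Tensor products of structures
-/

noncomputable section

namespace GD

open Complex TensorProduct

section aux

variable {k : Type*} [Field k] [Algebra k ℂ] {W W' U : Type} [AddCommGroup W] [Module ℂ W]
  [Module k W] [IsScalarTower k ℂ W] [AddCommGroup W'] [Module ℂ W'] [Module k W']
  [IsScalarTower k ℂ W'] [AddCommGroup U] [Module ℂ U] [Module k U] [IsScalarTower k ℂ U]

theorem bil_mem (μ : W →ₗ[ℂ] W' →ₗ[ℂ] U) {s : Set W} {s' : Set W'} (L : Submodule k U)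
    (h : ∀ a ∈ s, ∀ b ∈ s', μ a b ∈ L) {x : W} (hx : x ∈ Submodule.span k s) {y : W'}
    (hy : y ∈ Submodule.span k s') : μ x y ∈ L := by
  induction hx using Submodule.span_induction with
  | mem x hx =>
    induction hy using Submodule.span_induction with
    | mem y hy => exact h x hx y hy
    | zero =>
      rw [map_zero]
      exact zero_mem _
    | add y y' _ _ h1 h2 =>
      rw [map_add]
      exact add_mem h1 h2
    | smul c y _ h1 =>
      rw [← algebraMap_smul ℂ c y, map_smul, algebraMap_smul]
      exact L.smul_mem _ h1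
  | zero =>
    rw [map_zero, LinearMap.zero_apply]
    exact zero_mem _
  | add x x' _ _ h1 h2 =>
    rw [map_add, LinearMap.add_apply]
    exact add_mem h1 h2
  | smul c x _ h1 =>
    rw [← algebraMap_smul ℂ c x, map_smul, LinearMap.smul_apply, algebraMap_smul]
    exact L.smul_mem _ h1

theorem span_basis_form {k : Type} [Field k] [Algebra k ℂ] {W : Type} [AddCommGroup W]
    [Module ℂ W] [Module k W] [IsScalarTower k ℂ W] {P : Submodule k W}
    (hP : IsBaseChange ℂ P.subtype) {ι : Type*} (b : Module.Basis ι k P) : Submodule.span k (Set.range (formBasis hP b)) = P := by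
  have h1 : ⇑(formBasis hP b) = P.subtype ∘ b := by
    funext i
    exact formBasis_apply hP b i
  rw [h1, Set.range_comp, ← Submodule.map_span, b.span_eq, Submodule.map_top,
    Submodule.range_subtype]

/-- A grading from an adapted basis. -/
theorem internal_of_basis {κ : Type*} (η : Module.Basis κ ℂ W) (t : κ → ℕ)
    (A : ℕ → Submodule ℂ W) (h1 : ∀ a, η a ∈ A (t a))
    (h2 : ∀ p, A p ≤ Submodule.span ℂ (η '' {a | t a = p})) : DirectSum.IsInternal A := by
  classical
  rw [DirectSum.isInternal_submodule_iff_iSupIndep_and_iSup_eq_top]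
  constructor
  · rw [iSupIndep_iff_finsetSum_eq_zero_imp_eq_zero]
    intro s v hv h0 p hp
    have hz : ∀ q ∈ s, ∀ a, t a ≠ q → η.repr (v q) a = 0 := by
      intro q hq a ha
      have h3 := h2 q (hv q hq)
      rw [Module.Basis.mem_span_image] at h3
      by_contra hne
      exact ha (h3 (Finsupp.mem_support_iff.2 hne))
    apply η.repr.injective
    rw [map_zero]
    ext a
    rw [Finsupp.zero_apply]
    by_cases ha : t a = p
    · have h3 := congrArg (fun w => η.repr w a) h0
      simp only [map_sum, map_zero, Finsupp.zero_apply, Finset.sum_apply'] at h3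
      rw [Finset.sum_eq_single_of_mem p hp] at h3
      · exact h3
      · intro q hq hqp
        exact hz q hq a (fun h => hqp (h.symm.trans ha))
    · exact hz p hp a ha
  · rw [eq_top_iff, ← η.span_eq, Submodule.span_le]
    rintro _ ⟨a, rfl⟩
    exact Submodule.mem_iSup_of_mem (t a) (h1 a)

end aux

/-- a basis of a structure adapted to the Hodge decomposition -/
def hbas (S : Str) : Module.Basis (Σ p : ℕ, Fin (Module.finrank ℂ (S.hodge p))) ℂ S.W :=
  S.hodge_internal.collectedBasis fun p => Module.finBasis ℂ (S.hodge p)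

theorem hbas_mem (S : Str) (a : Σ p : ℕ, Fin (Module.finrank ℂ (S.hodge p))) :
    hbas S a ∈ S.hodge a.1 := S.hodge_internal.collectedBasis_mem _ a

theorem hodge_le_span (S : Str) (p : ℕ) :
    S.hodge p ≤ Submodule.span ℂ (hbas S '' {a | a.1 = p}) := by
  intro x hx
  have h1 : (⟨x, hx⟩ : S.hodge p) ∈ (⊤ : Submodule ℂ (S.hodge p)) := Submodule.mem_top
  rw [← (Module.finBasis ℂ (S.hodge p)).span_eq] at h1
  have h2 := Submodule.mem_map_of_mem (f := (S.hodge p).subtype) h1
  rw [Submodule.map_span] at h2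
  refine Submodule.span_mono ?_ h2
  rintro _ ⟨_, ⟨i, rfl⟩, rfl⟩
  refine ⟨⟨p, i⟩, rfl, ?_⟩
  rw [hbas, DirectSum.IsInternal.collectedBasis_coe]
  rfl

/-- The tensor product of two structures. -/
def Str.ten (S T : Str) : Str where
  W := TensorProduct ℂ S.W T.W
  wt := S.wt + T.wt
  B := Submodule.span ℚ {z | ∃ x ∈ S.B, ∃ y ∈ T.B, x ⊗ₜ[ℂ] y = z}
  D := Submodule.span Qbar {z | ∃ x ∈ S.D, ∃ y ∈ T.D, x ⊗ₜ[ℂ] y = z}
  B_form := by
    let b := Module.Free.chooseBasis ℚ S.B
    let b' := Module.Free.chooseBasis ℚ T.B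
    refine isBaseChange_of_basis _
      ((formBasis S.B_form b).tensorProduct (formBasis T.B_form b')) ?_ ?_
    · rintro ⟨i, j⟩
      rw [Module.Basis.tensorProduct_apply, formBasis_apply, formBasis_apply]
      exact Submodule.subset_span ⟨_, (b i).2, _, (b' j).2, rfl⟩
    · rw [Submodule.span_le]
      rintro _ ⟨x, hx, y, hy, rfl⟩
      rw [← span_basis_form S.B_form b] at hx
      rw [← span_basis_form T.B_form b'] at hy
      refine bil_mem (TensorProduct.mk ℂ S.W T.W) _ ?_ hx hy
      rintro _ ⟨i, rfl⟩ _ ⟨j, rfl⟩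
      apply Submodule.subset_span
      exact ⟨(i, j), Module.Basis.tensorProduct_apply _ _ _ _⟩
  D_form := by
    let b := Module.Free.chooseBasis Qbar S.D
    let b' := Module.Free.chooseBasis Qbar T.D
    refine isBaseChange_of_basis _
      ((formBasis S.D_form b).tensorProduct (formBasis T.D_form b')) ?_ ?_
    · rintro ⟨i, j⟩
      rw [Module.Basis.tensorProduct_apply, formBasis_apply, formBasis_apply]
      exact Submodule.subset_span ⟨_, (b i).2, _, (b' j).2, rfl⟩
    · rw [Submodule.span_le]
      rintro _ ⟨x, hx, y, hy, rfl⟩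
      rw [← span_basis_form S.D_form b] at hx
      rw [← span_basis_form T.D_form b'] at hy
      refine bil_mem (TensorProduct.mk ℂ S.W T.W) _ ?_ hx hy
      rintro _ ⟨i, rfl⟩ _ ⟨j, rfl⟩
      apply Submodule.subset_span
      exact ⟨(i, j), Module.Basis.tensorProduct_apply _ _ _ _⟩
  conj := TensorProduct.map S.conj T.conj
  conj_B := by
    intro z hz
    induction hz using Submodule.span_induction with
    | mem z hz =>
      obtain ⟨x, hx, y, hy, rfl⟩ := hz
      rw [TensorProduct.map_tmul, S.conj_B x hx, T.conj_B y hy]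
    | zero => exact map_zero _
    | add x y _ _ hx hy => rw [map_add, hx, hy]
    | smul q x _ hx =>
      have h1 : q • x = (q : ℂ) • x := by
        rw [← eq_ratCast (algebraMap ℚ ℂ), algebraMap_smul]
      rw [h1, LinearMap.map_smulₛₗ, hx]
      simp
  hodge p := Submodule.span ℂ
    {z | ∃ i j, i + j = p ∧ ∃ x ∈ S.hodge i, ∃ y ∈ T.hodge j, x ⊗ₜ[ℂ] y = z}
  hodge_internal := by
    refine internal_of_basis ((hbas S).tensorProduct (hbas T)) (fun a => a.1.1 + a.2.1) _ ?_ ?_
    · rintro ⟨a, b⟩
      rw [Module.Basis.tensorProduct_apply]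
      exact Submodule.subset_span ⟨a.1, b.1, rfl, _, hbas_mem S a, _, hbas_mem T b, rfl⟩
    · intro p
      rw [Submodule.span_le]
      rintro _ ⟨i, j, hij, x, hx, y, hy, rfl⟩
      refine bil_mem (TensorProduct.mk ℂ S.W T.W) _ ?_ (hodge_le_span S i hx)
        (hodge_le_span T j hy)
      rintro _ ⟨a, ha, rfl⟩ _ ⟨b, hb, rfl⟩
      apply Submodule.subset_span
      refine ⟨(a, b), ?_, Module.Basis.tensorProduct_apply _ _ _ _⟩
      change a.1 = i at ha
      change b.1 = j at hb
      change a.1 + b.1 = p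
      rw [ha, hb, hij]
  hodge_large := by
    intro p hp
    rw [Submodule.span_eq_bot]
    rintro _ ⟨i, j, hij, x, hx, y, hy, rfl⟩
    by_cases hi : S.wt < i
    · rw [S.hodge_large i hi, Submodule.mem_bot] at hx
      rw [hx, TensorProduct.zero_tmul]
    · rw [T.hodge_large j (by omega), Submodule.mem_bot] at hy
      rw [hy, TensorProduct.tmul_zero]
  hodge_conj := by
    intro p hp z hz
    induction hz using Submodule.span_induction with
    | mem z hz =>
      obtain ⟨i, j, hij, x, hx, y, hy, rfl⟩ := hz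
      by_cases hi : S.wt < i
      · rw [S.hodge_large i hi, Submodule.mem_bot] at hx
        rw [hx, TensorProduct.zero_tmul, map_zero]
        exact zero_mem _
      by_cases hj : T.wt < j
      · rw [T.hodge_large j hj, Submodule.mem_bot] at hy
        rw [hy, TensorProduct.tmul_zero, map_zero]
        exact zero_mem _
      rw [TensorProduct.map_tmul]
      apply Submodule.subset_span
      exact ⟨S.wt - i, T.wt - j, by omega, _, S.hodge_conj i (by omega) x hx, _,
        T.hodge_conj j (by omega) y hy, rfl⟩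
    | zero =>
      rw [map_zero]
      exact zero_mem _
    | add x y _ _ hx hy =>
      rw [map_add]
      exact add_mem hx hy
    | smul c x _ hx =>
      rw [LinearMap.map_smulₛₗ]
      exact Submodule.smul_mem _ _ hx

/-- The canonical bilinear map. -/
def mkT (S T : Str) : S.W →ₗ[ℂ] T.W →ₗ[ℂ] (S.ten T).W := TensorProduct.mk ℂ S.W T.W

theorem isBil_mk (S T : Str) : IsBil S T (S.ten T) (mkT S T) where
  wt := rfl
  betti x hx y hy := (Submodule.subset_span ⟨x, hx, y, hy, rfl⟩ : x ⊗ₜ[ℂ] y ∈
    Submodule.span ℚ {z | ∃ x ∈ S.B, ∃ y ∈ T.B, x ⊗ₜ[ℂ] y = z})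
  deRham x hx y hy := (Submodule.subset_span ⟨x, hx, y, hy, rfl⟩ : x ⊗ₜ[ℂ] y ∈
    Submodule.span Qbar {z | ∃ x ∈ S.D, ∃ y ∈ T.D, x ⊗ₜ[ℂ] y = z})
  hodge p q x hx y hy := (Submodule.subset_span ⟨p, q, rfl, x, hx, y, hy, rfl⟩ : x ⊗ₜ[ℂ] y ∈
    Submodule.span ℂ
      {z | ∃ i j, i + j = p + q ∧ ∃ x ∈ S.hodge i, ∃ y ∈ T.hodge j, x ⊗ₜ[ℂ] y = z})

theorem lift_mkT (S T : Str) (z : TensorProduct ℂ S.W T.W) :
    TensorProduct.lift (mkT S T) z = z :=
  LinearMap.congr_fun (TensorProduct.lift_mk (R := ℂ) (M := S.W) (N := T.W)) z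

theorem gen_ten {C : Str → Prop} {S T : Str} (hS : Gen C S) (hT : Gen C T) :
    Gen C (S.ten T) := by
  refine Gen.ten (S.ten T) 1 (fun _ => S) (fun _ => T) (fun _ => mkT S T)
    (fun _ => hS) (fun _ => hT) (fun _ => isBil_mk S T) ?_
  rw [ciSup_const, eq_top_iff]
  intro z _
  exact ⟨z, lift_mkT S T z⟩

/-- The generated class is closed under tensor products. -/
theorem gen_kunneth (C : Str → Prop) : Kunneth (Gen C) := by
  intro S T hS hT
  refine ⟨S.ten T, gen_ten hS hT, rfl, mkT S T, ?_, (isBil_mk S T).betti,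
    (isBil_mk S T).deRham, (isBil_mk S T).hodge⟩
  intro x y h
  have h1 := lift_mkT S T x
  have h2 := lift_mkT S T y
  exact h1.symm.trans (h.trans h2)

/-- Tensor powers (with `k + 1` factors). -/
def Str.tpow (S : Str) : ℕ → Str
  | 0 => S
  | k + 1 => S.ten (S.tpow k)

theorem tpow_wt (S : Str) (k : ℕ) : (S.tpow k).wt = (k + 1) * S.wt := by
  induction k with
  | zero => simp [Str.tpow]
  | succ k ih =>
    change S.wt + (S.tpow k).wt = _
    rw [ih]
    ring

theorem gen_tpow {C : Str → Prop} {S : Str} (hS : Gen C S) (k : ℕ) : Gen C (S.tpow k) := by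
  induction k with
  | zero => exact hS
  | succ k ih => exact gen_ten hS ih

section lift

variable (S : Str) (U : Type) [AddCommGroup U] [Module ℂ U]

/-- The linear map attached to a multilinear map. -/
def lft : ∀ k : ℕ, MultilinearMap ℂ (fun _ : Fin (k + 1) => S.W) U →ₗ[ℂ]
    ((S.tpow k).W →ₗ[ℂ] U)
  | 0 =>
    { toFun := fun f =>
        { toFun := fun x => f (fun _ => x)
          map_add' := fun x y => by
            have h := f.map_update_add (fun _ => 0) 0 x y
            have h1 : ∀ z : S.W, Function.update (fun _ : Fin (0 + 1) => (0 : S.W)) 0 z =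
                fun _ => z := by
              intro z
              funext i
              have hi : i = 0 := Fin.fin_one_eq_zero i
              rw [hi, Function.update_self]
            rw [h1, h1, h1] at h
            exact h
          map_smul' := fun c x => by
            have h := f.map_update_smul (fun _ => 0) 0 c x
            have h1 : ∀ z : S.W, Function.update (fun _ : Fin (0 + 1) => (0 : S.W)) 0 z =
                fun _ => z := by
              intro z
              funext i
              have hi : i = 0 := Fin.fin_one_eq_zero i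
              rw [hi, Function.update_self]
            rw [h1, h1] at h
            exact h }
      map_add' := fun f g => rfl
      map_smul' := fun c f => rfl }
  | k + 1 =>
    { toFun := fun f => TensorProduct.lift ((lft k).comp f.curryLeft)
      map_add' := fun f g => by
        apply TensorProduct.ext'
        intro x y
        change lft k ((f + g).curryLeft x) y = lft k (f.curryLeft x) y + lft k (g.curryLeft x) y
        have h1 : (f + g).curryLeft x = f.curryLeft x + g.curryLeft x := rfl
        rw [h1, map_add]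
        rfl
      map_smul' := fun c f => by
        apply TensorProduct.ext'
        intro x y
        change lft k ((c • f).curryLeft x) y = c • lft k (f.curryLeft x) y
        have h1 : (c • f).curryLeft x = c • f.curryLeft x := rfl
        rw [h1, map_smul]
        rfl }

variable {S U}

theorem lft_zero (f : MultilinearMap ℂ (fun _ : Fin (0 + 1) => S.W) U) (x : S.W) :
    lft S U 0 f x = f (fun _ => x) := rfl

theorem lft_succ (k : ℕ) (f : MultilinearMap ℂ (fun _ : Fin (k + 1 + 1) => S.W) U) (x : S.W)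
    (y : (S.tpow k).W) :
    lft S U (k + 1) f (x ⊗ₜ[ℂ] y : TensorProduct ℂ S.W (S.tpow k).W) =
      lft S U k (f.curryLeft x) y := rfl

/-- values on vectors of a form (rational vectors) -/
theorem lft_B [Module ℚ U] (L : Submodule ℚ U) : ∀ (k : ℕ)
    (f : MultilinearMap ℂ (fun _ : Fin (k + 1) => S.W) U),
    (∀ x, (∀ i, x i ∈ S.B) → f x ∈ L) → ∀ z ∈ (S.tpow k).B, lft S U k f z ∈ L := by
  intro k
  induction k with
  | zero =>
    intro f hf z hz
    exact hf _ fun _ => hz
  | succ k ih =>
    intro f hf z hz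
    have hz' : z ∈ Submodule.span ℚ
        {z | ∃ x ∈ S.B, ∃ y ∈ (S.tpow k).B, x ⊗ₜ[ℂ] y = z} := hz
    clear hz
    induction hz' using Submodule.span_induction with
    | mem z hz =>
      obtain ⟨x, hx, y, hy, rfl⟩ := hz
      rw [lft_succ]
      apply ih _ _ _ hy
      intro w hw
      apply hf
      intro i
      refine Fin.cases ?_ (fun j => ?_) i
      · exact hx
      · exact hw j
    | zero =>
      have h1 : lft S U (k + 1) f 0 = 0 := map_zero _
      exact h1 ▸ zero_mem _
    | add a b _ _ ha hb =>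
      have h1 : lft S U (k + 1) f (a + b) = lft S U (k + 1) f a + lft S U (k + 1) f b :=
        map_add _ a b
      exact h1 ▸ add_mem ha hb
    | smul q a _ ha =>
      have h1 := map_rat_smul (lft S U (k + 1) f) q a
      have h2 : lft S U (k + 1) f (q • a) ∈ L := by
        rw [h1]
        exact L.smul_mem q ha
      exact h2

/-- values on de Rham vectors -/
theorem lft_D (L : Submodule Qbar U) : ∀ (k : ℕ)
    (f : MultilinearMap ℂ (fun _ : Fin (k + 1) => S.W) U),
    (∀ x, (∀ i, x i ∈ S.D) → f x ∈ L) → ∀ z ∈ (S.tpow k).D, lft S U k f z ∈ L := by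
  intro k
  induction k with
  | zero =>
    intro f hf z hz
    exact hf _ fun _ => hz
  | succ k ih =>
    intro f hf z hz
    have hz' : z ∈ Submodule.span Qbar
        {z | ∃ x ∈ S.D, ∃ y ∈ (S.tpow k).D, x ⊗ₜ[ℂ] y = z} := hz
    clear hz
    induction hz' using Submodule.span_induction with
    | mem z hz =>
      obtain ⟨x, hx, y, hy, rfl⟩ := hz
      rw [lft_succ]
      apply ih _ _ _ hy
      intro w hw
      apply hf
      intro i
      refine Fin.cases ?_ (fun j => ?_) i
      · exact hx
      · exact hw j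
    | zero =>
      have h1 : lft S U (k + 1) f 0 = 0 := map_zero _
      exact h1 ▸ zero_mem _
    | add a b _ _ ha hb =>
      have h1 : lft S U (k + 1) f (a + b) = lft S U (k + 1) f a + lft S U (k + 1) f b :=
        map_add _ a b
      exact h1 ▸ add_mem ha hb
    | smul q a _ ha =>
      have h1 : lft S U (k + 1) f (q • a) = q • lft S U (k + 1) f a :=
        map_smul (lft S U (k + 1) f) (q : ℂ) a
      exact h1 ▸ L.smul_mem q ha

/-- values on Hodge vectors -/
theorem lft_H : ∀ (k : ℕ) (A : ℕ → Submodule ℂ U)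
    (f : MultilinearMap ℂ (fun _ : Fin (k + 1) => S.W) U),
    (∀ (p : Fin (k + 1) → ℕ) (x), (∀ i, x i ∈ S.hodge (p i)) → f x ∈ A (∑ i, p i)) →
    ∀ p, ∀ z ∈ (S.tpow k).hodge p, lft S U k f z ∈ A p := by
  intro k
  induction k with
  | zero =>
    intro A f hf p z hz
    have h1 := hf (fun _ => p) (fun _ => z) fun _ => hz
    have h2 : (∑ i : Fin (0 + 1), (fun _ => p) i) = p := by simp
    rw [h2] at h1
    exact h1
  | succ k ih =>
    intro A f hf p z hz
    have hz' : z ∈ Submodule.span ℂ
      {z | ∃ i j, i + j = p ∧ ∃ x ∈ S.hodge i, ∃ y ∈ (S.tpow k).hodge j, x ⊗ₜ[ℂ] y = z} := hz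
    clear hz
    induction hz' using Submodule.span_induction with
    | mem z hz =>
      obtain ⟨i, j, hij, x, hx, y, hy, rfl⟩ := hz
      rw [lft_succ, ← hij]
      apply ih (fun q => A (i + q)) _ _ j y hy
      intro p' w hw
      have h1 := hf (Fin.cons i p') (Fin.cons x w) (by
        intro l
        refine Fin.cases ?_ (fun l => ?_) l
        · exact hx
        · exact hw l)
      rw [Fin.sum_cons] at h1
      exact h1
    | zero =>
      have h1 : lft S U (k + 1) f 0 = 0 := map_zero _
      exact h1 ▸ zero_mem _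
    | add a b _ _ ha hb =>
      have h1 : lft S U (k + 1) f (a + b) = lft S U (k + 1) f a + lft S U (k + 1) f b :=
        map_add _ a b
      exact h1 ▸ add_mem ha hb
    | smul q a _ ha =>
      have h1 : lft S U (k + 1) f (q • a) = q • lft S U (k + 1) f a :=
        map_smul (lft S U (k + 1) f) q a
      exact h1 ▸ Submodule.smul_mem _ q ha

theorem lft_range : ∀ (k : ℕ) (f : MultilinearMap ℂ (fun _ : Fin (k + 1) => S.W) U)
    (x : Fin (k + 1) → S.W), ∃ z, lft S U k f z = f x := by
  intro k
  induction k with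
  | zero =>
    intro f x
    refine ⟨x 0, ?_⟩
    rw [lft_zero]
    congr 1
    funext i
    have hi : i = 0 := Fin.fin_one_eq_zero i
    rw [hi]
  | succ k ih =>
    intro f x
    obtain ⟨y, hy⟩ := ih (f.curryLeft (x 0)) (Fin.tail x)
    refine ⟨(x 0 ⊗ₜ[ℂ] y : TensorProduct ℂ S.W (S.tpow k).W), ?_⟩
    rw [lft_succ, hy]
    change f (Fin.cons (x 0) (Fin.tail x)) = f x
    rw [Fin.cons_self_tail]

end lift

/-- A structure spanned by the values of a multilinear morphism is generated. -/
theorem gen_of_multi {C : Str → Prop} {S : Str} (hS : Gen C S) (k : ℕ) (R : Str)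
    (f : MultilinearMap ℂ (fun _ : Fin (k + 1) => S.W) R.W) (hwt : R.wt = (k + 1) * S.wt)
    (hB : ∀ x, (∀ i, x i ∈ S.B) → f x ∈ R.B) (hD : ∀ x, (∀ i, x i ∈ S.D) → f x ∈ R.D)
    (hH : ∀ (p : Fin (k + 1) → ℕ) (x), (∀ i, x i ∈ S.hodge (p i)) → f x ∈ R.hodge (∑ i, p i))
    (hs : Submodule.span ℂ (Set.range f) = ⊤) : Gen C R := by
  refine Gen.lin R 1 (fun _ => S.tpow k) (fun _ => lft S R.W k f) (fun _ => gen_tpow hS k)
    (fun _ => ⟨?_, ?_, ?_, ?_⟩) ?_
  · rw [tpow_wt, hwt]
  · exact lft_B R.B k f hB
  · exact lft_D R.D k f hD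
  · exact lft_H k R.hodge f hH
  · rw [ciSup_const, eq_top_iff, ← hs, Submodule.span_le]
    rintro _ ⟨x, rfl⟩
    exact lft_range k f x

end GD
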