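import Pool.Agent.H27.GD.DetBas

/-!
# The family of determinants in a tensor power
-/

set_option autoImplicit false

noncomputable section

namespace GD

open Complex TensorProduct

section tp

variable (S : Str)

/-- The canonical multilinear map to the tensor power. -/
def tp : ∀ k : ℕ, MultilinearMap ℂ (fun _ : Fin (k + 1) => S.W) (S.tpow k).W
  | 0 => MultilinearMap.ofSubsingleton ℂ S.W S.W (0 : Fin 1) LinearMap.id
  | k + 1 => LinearMap.uncurryLeft
      { toFun := fun x => (mkT S (S.tpow k) x).compMultilinearMap (tp k)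
        map_add' := fun x y => by
          rw [map_add]
          rfl
        map_smul' := fun c x => by
          rw [map_smul]
          rfl }

theorem tp_zero (x : Fin (0 + 1) → S.W) : tp S 0 x = x 0 := rfl

theorem tp_succ (k : ℕ) (x : Fin (k + 1 + 1) → S.W) :
    tp S (k + 1) x = mkT S (S.tpow k) (x 0) (tp S k (Fin.tail x)) := rfl

variable {S}

theorem tp_B : ∀ (k : ℕ) (x : Fin (k + 1) → S.W), (∀ i, x i ∈ S.B) → tp S k x ∈ (S.tpow k).B
  | 0, _, hx => hx 0
  | k + 1, x, hx => (isBil_mk S (S.tpow k)).betti (x 0) (hx 0) _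
      (tp_B k (Fin.tail x) fun i => hx i.succ)

theorem tp_D : ∀ (k : ℕ) (x : Fin (k + 1) → S.W), (∀ i, x i ∈ S.D) → tp S k x ∈ (S.tpow k).D
  | 0, _, hx => hx 0
  | k + 1, x, hx => (isBil_mk S (S.tpow k)).deRham (x 0) (hx 0) _
      (tp_D k (Fin.tail x) fun i => hx i.succ)

theorem tp_H : ∀ (k : ℕ) (p : Fin (k + 1) → ℕ) (x : Fin (k + 1) → S.W),
    (∀ i, x i ∈ S.hodge (p i)) → tp S k x ∈ (S.tpow k).hodge (∑ i, p i)
  | 0, p, x, hx => by
    have h : ∑ i : Fin (0 + 1), p i = p 0 := Fin.sum_univ_one p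
    rw [h]
    exact hx 0
  | k + 1, p, x, hx => by
    rw [Fin.sum_univ_succ]
    exact (isBil_mk S (S.tpow k)).hodge _ _ (x 0) (hx 0) _
      (tp_H k (Fin.tail p) (Fin.tail x) fun i => hx i.succ)

theorem lft_tp {U : Type} [AddCommGroup U] [Module ℂ U] : ∀ (k : ℕ)
    (f : MultilinearMap ℂ (fun _ : Fin (k + 1) => S.W) U) (x : Fin (k + 1) → S.W),
    lft S U k f (tp S k x) = f x
  | 0, f, x => by
    rw [lft_zero, tp_zero]
    congr 1
    funext i
    have hi : i = 0 := Fin.fin_one_eq_zero i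
    rw [hi]
  | k + 1, f, x => by
    have h1 : lft S U (k + 1) f (tp S (k + 1) x) =
        lft S U k (f.curryLeft (x 0)) (tp S k (Fin.tail x)) := rfl
    rw [h1, lft_tp]
    change f (Fin.cons (x 0) (Fin.tail x)) = f x
    rw [Fin.cons_self_tail]

end tp

namespace DT

open NumberField Module

variable {S : Str}

/-- The alternating tensor. -/
def atp (S : Str) (k : ℕ) : S.W [⋀^Fin (k + 1)]→ₗ[ℂ] (S.tpow k).W :=
  MultilinearMap.alternatization (tp S k)

theorem atp_apply (k : ℕ) (x : Fin (k + 1) → S.W) :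
    atp S k x = ∑ s : Equiv.Perm (Fin (k + 1)), Equiv.Perm.sign s • tp S k (fun i => x (s i)) := by
  rw [atp, MultilinearMap.alternatization_apply]
  rfl

theorem atp_mem {k : ℕ} (A : AddSubgroup (S.tpow k).W) (x : Fin (k + 1) → S.W)
    (h : ∀ s : Equiv.Perm (Fin (k + 1)), tp S k (fun i => x (s i)) ∈ A) : atp S k x ∈ A := by
  rw [atp_apply]
  refine A.sum_mem fun s _ => ?_
  rw [Units.smul_def]
  exact A.zsmul_mem (h s) _

theorem atp_B {k : ℕ} (x : Fin (k + 1) → S.W) (hx : ∀ i, x i ∈ S.B) :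
    atp S k x ∈ (S.tpow k).B :=
  atp_mem (S.tpow k).B.toAddSubgroup x fun s => tp_B k _ fun i => hx (s i)

theorem atp_D {k : ℕ} (x : Fin (k + 1) → S.W) (hx : ∀ i, x i ∈ S.D) :
    atp S k x ∈ (S.tpow k).D :=
  atp_mem (S.tpow k).D.toAddSubgroup x fun s => tp_D k _ fun i => hx (s i)

theorem atp_H {k : ℕ} (p : Fin (k + 1) → ℕ) (x : Fin (k + 1) → S.W)
    (hx : ∀ i, x i ∈ S.hodge (p i)) : atp S k x ∈ (S.tpow k).hodge (∑ i, p i) :=
  atp_mem ((S.tpow k).hodge (∑ i, p i)).toAddSubgroup x fun s => by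
    have h := tp_H k (fun i => p (s i)) (fun i => x (s i)) fun i => hx (s i)
    rwa [Equiv.sum_comp s p] at h

/-- Traces of the values of a multilinear map are rational. -/
theorem multi_rat {L : Type} [Field L] [NumberField L] {W U : Type} [AddCommGroup W] [Module ℂ W]
    [Module ℚ W] [AddCommGroup U] [Module ℂ U] [Module ℚ U] (A : Submodule ℚ U) {n : ℕ}
    (f : MultilinearMap ℂ (fun _ : Fin n => W) U) (y : Fin n → Fin (finrank ℚ L) → W)
    (h : ∀ I : Fin n → Fin (finrank ℚ L), f (fun j => y j (I j)) ∈ A) (x : L) :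
    ∑ σ : L →+* ℂ, σ x • f (fun j => ∑ i, σ (bad L i) • y j i) ∈ A := by
  classical
  have h1 : ∀ σ : L →+* ℂ, f (fun j => ∑ i, σ (bad L i) • y j i) =
      ∑ I : Fin n → Fin (finrank ℚ L), (∏ j, σ (bad L (I j))) • f (fun j => y j (I j)) := by
    intro σ
    rw [f.map_sum]
    exact Finset.sum_congr rfl fun I _ => f.map_smul_univ _ _
  have h2 : ∑ σ : L →+* ℂ, σ x • f (fun j => ∑ i, σ (bad L i) • y j i) =
      ∑ I : Fin n → Fin (finrank ℚ L),
        (Algebra.trace ℚ L (x * ∏ j, bad L (I j))) • f (fun j => y j (I j)) := by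
    simp_rw [h1, Finset.smul_sum]
    rw [Finset.sum_comm]
    refine Finset.sum_congr rfl fun I _ => ?_
    simp_rw [smul_smul]
    rw [← Finset.sum_smul]
    have h3 := trace_sum L (x * ∏ j, bad L (I j))
    simp_rw [map_mul, map_prod] at h3
    rw [← h3, ratC_smul]
  rw [h2]
  exact A.sum_mem fun I _ => A.smul_mem _ (h I)

variable {M : Submodule ℚ S.W} {L : Type} [Field L] [NumberField L]
  (ι : L →+* Module.End ℂ (S.cx M))

/-- The family of the determinants inside a tensor power. -/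
theorem exists_fam_tpow (P : Pol S) (hM : IsSub S M) (hne : M ≠ ⊥)
    (hι : ∀ a, IsEnd S M (ι a)) :
    ∃ k : ℕ, (k + 1) * finrank ℚ L = finrank ℚ M ∧ ∃ f : Fam (S.tpow k) L,
      (∀ τ, IsDetPeriod ι τ (f.c τ)) ∧ f.p = detType ι := by
  classical
  obtain ⟨k, m, G, hrank, hmM, hvlin, heig, hG1, hG0⟩ := exists_det_basis ι P hM hι hne
  have hfr : ∀ τ : L →+* ℂ, finrank ℂ (eig ι τ) = k + 1 := by
    intro τ
    rw [← heig τ, finrank_span_eq_card (hvlin τ), Fintype.card_fin]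
  have hcoe : ∀ (τ : L →+* ℂ) (x : S.cx M),
      (prj ι τ x : S.W) = ∑ i, τ (bad L i) • (ι (bas L i) x : S.W) := by
    intro τ x
    rw [prj_apply, AddSubmonoidClass.coe_finsetSum]
    rfl
  have halg : ∀ (τ : L →+* ℂ) i, τ (bad L i) ∈ Qbar := fun τ i =>
    mem_algebraicClosure_iff.2 (emb_alg L τ _)
  -- bases of the eigenspaces with a property
  have hbase : ∀ (s : Set S.W), S.cx M ≤ Submodule.span ℂ (s ∩ (S.cx M : Set S.W)) →
      ∀ τ : L →+* ℂ, (∀ x : S.cx M, (x : S.W) ∈ s → (prj ι τ x : S.W) ∈ s) →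
      ∃ ω : Fin (k + 1) → S.W, LinearIndependent ℂ ω ∧
        Submodule.span ℂ (Set.range ω) = eig ι τ ∧ (∀ j, ω j ∈ s) ∧
        ∃ Φ : Matrix (Fin (k + 1)) (Fin (k + 1)) ℂ,
          (∀ i, ω i = ∑ j, Φ i j • (prj ι τ (m j) : S.W)) ∧
        ∃ Ψ : Matrix (Fin (k + 1)) (Fin (k + 1)) ℂ,
          ∀ i, (prj ι τ (m i) : S.W) = ∑ j, Ψ i j • ω j := by
    intro s hs τ hp
    obtain ⟨ω, h1, h2, h3⟩ := exists_basis_in ι s hs τ hp
    let e : Fin (k + 1) ≃ Fin (finrank ℂ (eig ι τ)) := finCongr (hfr τ).symm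
    have h4 : Submodule.span ℂ (Set.range (ω ∘ e)) = eig ι τ := by
      rw [e.surjective.range_comp, h2]
    have hΦ : ∀ i, ∃ c : Fin (k + 1) → ℂ, ∑ j, c j • (prj ι τ (m j) : S.W) = (ω ∘ e) i := by
      intro i
      apply (Submodule.mem_span_range_iff_exists_fun ℂ).1
      have h5 : (ω ∘ e) i ∈ Submodule.span ℂ (Set.range (ω ∘ e)) :=
        Submodule.subset_span ⟨i, rfl⟩
      exact ((heig τ).trans h4.symm).ge h5
    have hΨ : ∀ i, ∃ c : Fin (k + 1) → ℂ, ∑ j, c j • (ω ∘ e) j = (prj ι τ (m i) : S.W) := by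
      intro i
      apply (Submodule.mem_span_range_iff_exists_fun ℂ).1
      rw [h4]
      exact prj_mem_eig ι τ _
    choose Φ hΦ using hΦ
    choose Ψ hΨ using hΨ
    exact ⟨ω ∘ e, h1.comp _ e.injective, h4, fun j => h3 _, Φ, fun i => (hΦ i).symm, Ψ,
      fun i => (hΨ i).symm⟩
  -- de Rham bases
  have hω := fun τ => hbase (S.D : Set S.W)
      (hM.deRham.trans (Submodule.span_mono fun x hx => hx)) τ (by
        intro x hx
        rw [hcoe]
        exact Submodule.sum_mem _ fun i _ =>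
          S.D.smul_mem (⟨_, halg τ i⟩ : Qbar) ((hι _).deRham x hx))
  choose ω hωlin hωspan hωD Φ hΦ _ _ using hω
  -- homogeneous bases
  have hβ := fun τ => hbase {w | ∃ p, w ∈ S.hodge p} (by
      refine hM.hodge.trans (iSup_le fun p => ?_)
      intro x hx
      exact Submodule.subset_span ⟨⟨p, hx.2⟩, hx.1⟩) τ (by
        rintro x ⟨p, hx⟩
        refine ⟨p, ?_⟩
        rw [hcoe]
        exact Submodule.sum_mem _ fun i _ => Submodule.smul_mem _ _ ((hι _).hodge p x hx))
  choose β hβlin hβspan hβH _ _ Ψ hΨ using hβ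
  choose p hp using hβH
  have hvbar : ∀ τ j, (prj ι τ (m j) : S.W) ∈ Submodule.span Qbar (M : Set S.W) := by
    intro τ j
    rw [hcoe]
    refine Submodule.sum_mem _ fun i _ => ?_
    exact Submodule.smul_mem _ (⟨_, halg τ i⟩ : Qbar)
      (Submodule.subset_span ((hι _).betti _ (hmM j)))
  have hper : ∀ τ, IsDetPeriod ι τ (Matrix.det (Φ τ)) := fun τ =>
    ⟨k + 1, fun j => (prj ι τ (m j) : S.W), ω τ, Φ τ, hvlin τ, heig τ, hωlin τ, hωspan τ,
      hvbar τ, hωD τ, fun i => hΦ τ i, rfl⟩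
  refine ⟨k, hrank,
    { v := fun τ => atp S k (fun j => (prj ι τ (m j) : S.W))
      c := fun τ => Matrix.det (Φ τ)
      p := detType ι
      lin := alt_indep hG1 hG0 (tp S k) (fun f x => lft_tp k f x)
      rat := fun x => ?_
      hdg := fun τ => ?_
      c_ne := fun τ => (detPeriod_trace ι hM.le (hper τ)).1
      dR := fun τ => ?_ }, hper, rfl⟩
  · have h1 := multi_rat (L := L) (S.tpow k).B (atp S k).toMultilinearMap
      (fun j i => (ι (bas L i) (m j) : S.W)) (fun I => atp_B _ fun i =>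
        hM.le ((hι _).betti _ (hmM i))) x
    have h2 : ∀ σ : L →+* ℂ, atp S k (fun j => (prj ι σ (m j) : S.W)) =
        (atp S k).toMultilinearMap (fun j => ∑ i, σ (bad L i) • (ι (bas L i) (m j) : S.W)) := by
      intro σ
      have h3 : (fun j => (prj ι σ (m j) : S.W)) =
          (fun j => ∑ i, σ (bad L i) • (ι (bas L i) (m j) : S.W)) := by
        funext j
        exact hcoe σ (m j)
      rw [h3]
      rfl
    simp_rw [h2]
    exact h1
  · have h1 : (fun j => (prj ι τ (m j) : S.W)) = fun i => ∑ j, Ψ τ i j • β τ j := by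
      funext i
      exact hΨ τ i
    rw [h1, alt_comb]
    have h2 := atp_H (p τ) (β τ) (hp τ)
    rw [sum_type ι P hM hι τ (hβlin τ) (hβspan τ) (hp τ)] at h2
    exact Submodule.smul_mem _ _ h2
  · have h1 : ω τ = fun i => ∑ j, Φ τ i j • (prj ι τ (m j) : S.W) := by
      funext i
      exact hΦ τ i
    have h2 := atp_D (ω τ) (hωD τ)
    rw [h1, alt_comb] at h2
    exact h2

end DT

end GD
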