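import Mathlib
import Pool.Agent.H44.GD.Conn

/-!
# The connections: naturality, eigenvalues, determinants
-/

noncomputable section

namespace GD

open Complex Matrix

section nat

variable {S T R : Str} (δ : Derivation Qbar ℂ ℂ)

theorem nabB_nat (f : S.W →ₗ[ℂ] R.W) (hf : ∀ w ∈ S.B, f w ∈ R.B) (w : S.W) :
    R.nabB δ (f w) = f (S.nabB δ w) := by
  refine S.B_form.inductionOn w (fun w => R.nabB δ (f w) = f (S.nabB δ w)) ?_ ?_ ?_ ?_
  · rw [map_zero, map_zero, map_zero, map_zero]
  · intro b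
    rw [Submodule.subtype_apply, R.nabB_B δ (hf _ b.2), S.nabB_B δ b.2, map_zero]
  · intro s n ih
    rw [map_smul, R.nabB_smul, S.nabB_smul, map_add, map_smul, map_smul, ih]
  · intro a b ha hb
    rw [map_add, map_add, map_add, map_add, ha, hb]

theorem nabD_nat (f : S.W →ₗ[ℂ] R.W) (hf : ∀ w ∈ S.D, f w ∈ R.D) (w : S.W) :
    R.nabD δ (f w) = f (S.nabD δ w) := by
  refine S.D_form.inductionOn w (fun w => R.nabD δ (f w) = f (S.nabD δ w)) ?_ ?_ ?_ ?_
  · rw [map_zero, map_zero, map_zero, map_zero]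
  · intro b
    rw [Submodule.subtype_apply, R.nabD_D δ (hf _ b.2), S.nabD_D δ b.2, map_zero]
  · intro s n ih
    rw [map_smul, R.nabD_smul, S.nabD_smul, map_add, map_smul, map_smul, ih]
  · intro a b ha hb
    rw [map_add, map_add, map_add, map_add, ha, hb]

/-- `A δ` is natural. -/
theorem A_nat (f : S.W →ₗ[ℂ] R.W) (hB : ∀ w ∈ S.B, f w ∈ R.B) (hD : ∀ w ∈ S.D, f w ∈ R.D)
    (w : S.W) : R.A δ (f w) = f (S.A δ w) := by
  rw [R.A_apply, S.A_apply, nabB_nat δ f hB, nabD_nat δ f hD, map_sub]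

variable (μ : S.W →ₗ[ℂ] T.W →ₗ[ℂ] R.W)

theorem nabB_bil (hμ : ∀ x ∈ S.B, ∀ y ∈ T.B, μ x y ∈ R.B) (x : S.W) (y : T.W) :
    R.nabB δ (μ x y) = μ (S.nabB δ x) y + μ x (T.nabB δ y) := by
  refine S.B_form.inductionOn x
    (fun x => R.nabB δ (μ x y) = μ (S.nabB δ x) y + μ x (T.nabB δ y)) ?_ ?_ ?_ ?_
  · simp
  · intro b
    rw [Submodule.subtype_apply, S.nabB_B δ b.2, map_zero, LinearMap.zero_apply, zero_add]
    exact nabB_nat δ (μ (b : S.W)) (fun w hw => hμ _ b.2 w hw) y
  · intro s n ih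
    rw [map_smul, LinearMap.smul_apply, R.nabB_smul, S.nabB_smul, map_add, map_smul, map_smul,
      LinearMap.add_apply, LinearMap.smul_apply, LinearMap.smul_apply, LinearMap.smul_apply, ih,
      smul_add]
    abel
  · intro a b ha hb
    rw [map_add, LinearMap.add_apply, map_add, ha, hb, map_add, map_add, LinearMap.add_apply,
      LinearMap.add_apply]
    abel

theorem nabD_bil (hμ : ∀ x ∈ S.D, ∀ y ∈ T.D, μ x y ∈ R.D) (x : S.W) (y : T.W) :
    R.nabD δ (μ x y) = μ (S.nabD δ x) y + μ x (T.nabD δ y) := by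
  refine S.D_form.inductionOn x
    (fun x => R.nabD δ (μ x y) = μ (S.nabD δ x) y + μ x (T.nabD δ y)) ?_ ?_ ?_ ?_
  · simp
  · intro b
    rw [Submodule.subtype_apply, S.nabD_D δ b.2, map_zero, LinearMap.zero_apply, zero_add]
    exact nabD_nat δ (μ (b : S.W)) (fun w hw => hμ _ b.2 w hw) y
  · intro s n ih
    rw [map_smul, LinearMap.smul_apply, R.nabD_smul, S.nabD_smul, map_add, map_smul, map_smul,
      LinearMap.add_apply, LinearMap.smul_apply, LinearMap.smul_apply, LinearMap.smul_apply, ih,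
      smul_add]
    abel
  · intro a b ha hb
    rw [map_add, LinearMap.add_apply, map_add, ha, hb, map_add, map_add, LinearMap.add_apply,
      LinearMap.add_apply]
    abel

/-- `A δ` is a derivation for bilinear maps. -/
theorem A_bil (hB : ∀ x ∈ S.B, ∀ y ∈ T.B, μ x y ∈ R.B) (hD : ∀ x ∈ S.D, ∀ y ∈ T.D, μ x y ∈ R.D)
    (x : S.W) (y : T.W) : R.A δ (μ x y) = μ (S.A δ x) y + μ x (T.A δ y) := by
  rw [R.A_apply, S.A_apply, T.A_apply, nabB_bil δ μ hB, nabD_bil δ μ hD, map_sub, map_sub,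
    LinearMap.sub_apply]
  abel

end nat

section descent

variable {S R : Str}

/-- A linear map which commutes with all `nabD δ` preserves the de Rham vectors. -/
theorem maps_D_of_nabD (f : S.W →ₗ[ℂ] R.W)
    (h : ∀ (δ : Derivation Qbar ℂ ℂ) (w : S.W), R.nabD δ (f w) = f (S.nabD δ w)) :
    ∀ w ∈ S.D, f w ∈ R.D := by
  intro w hw
  apply R.mem_D_of_nabD
  intro δ
  rw [h δ w, S.nabD_D δ hw, map_zero]

/-- A rational linear map which commutes with all `A δ` preserves the de Rham vectors. -/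
theorem maps_D_of_A (f : S.W →ₗ[ℂ] R.W) (hB : ∀ w ∈ S.B, f w ∈ R.B)
    (h : ∀ (δ : Derivation Qbar ℂ ℂ) (w : S.W), R.A δ (f w) = f (S.A δ w)) :
    ∀ w ∈ S.D, f w ∈ R.D := by
  apply maps_D_of_nabD f
  intro δ w
  have h1 := h δ w
  rw [R.A_apply, S.A_apply, nabB_nat δ f hB, map_sub] at h1
  exact sub_right_inj.1 h1

/-- A rational subspace generates a subspace stable under `nabB δ`. -/
theorem nabB_cx (δ : Derivation Qbar ℂ ℂ) (M : Submodule ℚ S.W) (hM : M ≤ S.B) {w : S.W}
    (hw : w ∈ S.cx M) : S.nabB δ w ∈ S.cx M := by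
  induction hw using Submodule.span_induction with
  | mem x hx =>
    rw [S.nabB_B δ (hM hx)]
    exact zero_mem _
  | zero =>
    rw [map_zero]
    exact zero_mem _
  | add x y _ _ hx hy =>
    rw [map_add]
    exact add_mem hx hy
  | smul a x hx' hx =>
    rw [S.nabB_smul]
    exact add_mem (Submodule.smul_mem _ _ hx') (Submodule.smul_mem _ _ hx)

/-- A subspace spanned by de Rham vectors is stable under `nabD δ`. -/
theorem nabD_span (δ : Derivation Qbar ℂ ℂ) (U : Submodule ℂ S.W)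
    (hU : U ≤ Submodule.span ℂ ((S.D : Set S.W) ∩ U)) {w : S.W} (hw : w ∈ U) :
    S.nabD δ w ∈ U := by
  have h1 := hU hw
  induction h1 using Submodule.span_induction with
  | mem x hx =>
    rw [S.nabD_D δ hx.1]
    exact zero_mem _
  | zero =>
    rw [map_zero]
    exact zero_mem _
  | add x y hx' hy' hx hy =>
    have h2 : Submodule.span ℂ ((S.D : Set S.W) ∩ U) ≤ U := by
      rw [Submodule.span_le]
      exact fun z hz => hz.2
    rw [map_add]
    exact add_mem (hx (h2 hx')) (hy (h2 hy'))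
  | smul a x hx' hx =>
    have h2 : Submodule.span ℂ ((S.D : Set S.W) ∩ U) ≤ U := by
      rw [Submodule.span_le]
      exact fun z hz => hz.2
    rw [S.nabD_smul]
    exact add_mem (Submodule.smul_mem _ _ (h2 hx')) (Submodule.smul_mem _ _ (hx (h2 hx')))

/-- A rational subspace which is spanned by de Rham vectors is stable under `A δ`. -/
theorem A_cx (δ : Derivation Qbar ℂ ℂ) (M : Submodule ℚ S.W) (hM : M ≤ S.B)
    (hD : S.cx M ≤ Submodule.span ℂ ((S.D : Set S.W) ∩ (S.cx M : Set S.W))) {w : S.W}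
    (hw : w ∈ S.cx M) : S.A δ w ∈ S.cx M := by
  rw [S.A_apply]
  exact sub_mem (nabB_cx δ M hM hw) (nabD_span δ _ hD hw)

/-- The eigenvalue of `A δ` on a de Rham vector `P v`, `v` rational with algebraic
coefficients. -/
theorem A_eigen (δ : Derivation Qbar ℂ ℂ) {v : S.W} (hv : v ∈ S.Bbar) {P : ℂ} (hP : P ≠ 0)
    (hD : P • v ∈ S.D) : S.A δ v = (δ P / P) • v := by
  have h1 : S.A δ (P • v) = δ P • v := by
    rw [S.A_D δ hD, S.nabB_smul, S.nabB_Bbar δ hv, smul_zero, add_zero]
  rw [map_smul] at h1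
  have h2 : S.A δ v = P⁻¹ • (P • S.A δ v) := by rw [smul_smul, inv_mul_cancel₀ hP, one_smul]
  rw [h2, h1, smul_smul]
  congr 1
  ring

end descent

section det

variable {k : Type} [Field k] [Algebra k ℂ] {ι : Type} [Fintype ι] [DecidableEq ι]

theorem der_finset_prod (δ : Derivation k ℂ ℂ) (s : Finset ι) (x : ι → ℂ) :
    δ (∏ i ∈ s, x i) = ∑ i ∈ s, δ (x i) * ∏ j ∈ s.erase i, x j := by
  induction s using Finset.induction_on with
  | empty => simp
  | insert a s ha ih =>
    rw [Finset.prod_insert ha, Finset.sum_insert ha, Derivation.leibniz, ih,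
      Finset.erase_insert ha, smul_eq_mul, smul_eq_mul, Finset.mul_sum]
    rw [add_comm, mul_comm (∏ i ∈ s, x i) (δ (x a))]
    congr 1
    refine Finset.sum_congr rfl fun i hi => ?_
    have h1 : a ≠ i := fun h => ha (h ▸ hi)
    have h2 : (insert a s).erase i = insert a (s.erase i) := Finset.erase_insert_of_ne h1
    rw [h2, Finset.prod_insert (fun h => ha (Finset.mem_of_mem_erase h))]
    ring

/-- The derivative of a determinant. -/
theorem der_det (δ : Derivation k ℂ ℂ) (Φ : Matrix ι ι ℂ) :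
    δ Φ.det = (Φ.adjugate * Φ.map δ).trace := by
  have h1 : (Φ.adjugate * Φ.map δ).trace =
      ∑ i, (Φ.updateCol i (fun j => δ (Φ j i))).det := by
    rw [Matrix.trace]
    refine Finset.sum_congr rfl fun i _ => ?_
    rw [← Matrix.cramer_apply, Matrix.cramer_eq_adjugate_mulVec, Matrix.diag_apply,
      Matrix.mul_apply]
    rfl
  rw [h1, Matrix.det_apply', map_sum]
  have h2 : ∀ i, (Φ.updateCol i (fun j => δ (Φ j i))).det =
      ∑ τ : Equiv.Perm ι, ((Equiv.Perm.sign τ : ℤ) : ℂ) *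
        (δ (Φ (τ i) i) * ∏ j ∈ Finset.univ.erase i, Φ (τ j) j) := by
    intro i
    rw [Matrix.det_apply']
    refine Finset.sum_congr rfl fun τ _ => ?_
    congr 1
    rw [← Finset.mul_prod_erase Finset.univ _ (Finset.mem_univ i)]
    congr 1
    · simp
    · refine Finset.prod_congr rfl fun j hj => ?_
      rw [Matrix.updateCol_ne (Finset.ne_of_mem_erase hj)]
  simp only [h2]
  rw [Finset.sum_comm]
  refine Finset.sum_congr rfl fun τ _ => ?_
  rw [Derivation.leibniz, der_finset_prod]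
  have h3 : δ (((Equiv.Perm.sign τ : ℤ) : ℂ)) = 0 := by
    have : (((Equiv.Perm.sign τ : ℤ) : ℂ)) = algebraMap k ℂ ((Equiv.Perm.sign τ : ℤ) : k) := by
      simp
    rw [this, δ.map_algebraMap]
  rw [h3, smul_zero, add_zero, smul_eq_mul, Finset.mul_sum]

/-- The logarithmic derivative of a determinant. -/
theorem der_det_div (δ : Derivation k ℂ ℂ) (Φ M : Matrix ι ι ℂ) (hΦ : Φ.det ≠ 0)
    (h : M * Φ = Φ.map δ) : δ Φ.det / Φ.det = M.trace := by
  rw [der_det, ← h, Matrix.trace_mul_comm, Matrix.mul_assoc, Matrix.mul_adjugate,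
    Matrix.mul_smul, Matrix.mul_one, Matrix.trace_smul, smul_eq_mul, mul_div_cancel_left₀ _ hΦ]

end det

/-- The trace of `A δ` on a subspace with bases of both kinds. -/
theorem trace_A {S : Str} (δ : Derivation Qbar ℂ ℂ) {ι : Type} [Fintype ι] [DecidableEq ι]
    (U : Submodule ℂ S.W) (v w : Module.Basis ι ℂ U) (hv : ∀ i, (v i : S.W) ∈ S.Bbar)
    (hw : ∀ i, (w i : S.W) ∈ S.D) (hU : ∀ x ∈ U, S.A δ x ∈ U) :
    LinearMap.trace ℂ U ((S.A δ).restrict hU) =
      δ (v.toMatrix w).det / (v.toMatrix w).det := by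
  have hdet : (v.toMatrix w).det ≠ 0 := by
    have h1 := Module.Basis.toMatrix_mul_toMatrix_flip v w
    intro h0
    have h2 := congrArg Matrix.det h1
    rw [Matrix.det_mul, h0, zero_mul, Matrix.det_one] at h2
    exact zero_ne_one h2
  rw [LinearMap.trace_eq_matrix_trace ℂ v, der_det_div δ (v.toMatrix w) _ hdet]
  -- coordinates of `A δ (w j)` in the basis `v`
  have hA : ∀ j, (((S.A δ).restrict hU) (w j)) = ∑ i, δ (v.toMatrix w i j) • v i := by
    intro j
    apply Subtype.ext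
    rw [LinearMap.restrict_coe_apply, S.A_D δ (hw j)]
    have h1 : (w j : S.W) = ∑ i, (v.toMatrix w i j) • (v i : S.W) := by
      have h3 := congrArg U.subtype (v.sum_toMatrix_smul_self w j)
      rw [map_sum] at h3
      simpa only [map_smul, Submodule.subtype_apply] using h3.symm
    rw [h1, map_sum]
    simp only [S.nabB_smul, S.nabB_Bbar δ (hv _), smul_zero, add_zero]
    simp
  ext i j
  rw [Matrix.map_apply]
  have h1 : (LinearMap.toMatrix v v ((S.A δ).restrict hU) * v.toMatrix w) i j =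
      v.repr (((S.A δ).restrict hU) (w j)) i := by
    rw [Matrix.mul_apply]
    have h2 : (((S.A δ).restrict hU) (w j)) =
        ∑ l, (v.toMatrix w l j) • ((S.A δ).restrict hU) (v l) := by
      conv_lhs => rw [← v.sum_toMatrix_smul_self w j, map_sum]
      simp
    rw [h2]
    simp [LinearMap.toMatrix_apply, mul_comm]
  rw [h1, hA j]
  simp [Finsupp.single_apply]

end GD
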