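import Mathlib
import Pool.Agent.H44.GD.Conn2
import Pool.Agent.H26.DT.Defs

/-!
# Substructures of a polarised structure: projectors
-/

noncomputable section

namespace GD

open Complex Module

section basic

variable (S : Str)

theorem Str.finite_B : Module.Finite ℚ S.B := by
  let b := Module.Free.chooseBasis ℚ S.B
  haveI : Finite (Module.Free.ChooseBasisIndex ℚ S.B) :=
    Module.Finite.finite_basis (formBasis S.B_form b)
  exact Module.Finite.of_basis b

theorem Str.finite_D : Module.Finite Qbar S.D := by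
  let b := Module.Free.chooseBasis Qbar S.D
  haveI : Finite (Module.Free.ChooseBasisIndex Qbar S.D) :=
    Module.Finite.finite_basis (formBasis S.D_form b)
  exact Module.Finite.of_basis b

variable {S}

theorem finite_sub {M : Submodule ℚ S.W} (hM : M ≤ S.B) : Module.Finite ℚ M := by
  haveI := S.finite_B
  exact Module.Finite.of_injective (Submodule.inclusion hM) (Submodule.inclusion_injective hM)

theorem Str.cx_B : S.cx S.B = ⊤ := by
  rw [eq_top_iff]
  intro w _
  refine S.B_form.inductionOn w (fun w => w ∈ S.cx S.B) (zero_mem _)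
    (fun b => Submodule.subset_span b.2) (fun s n h => Submodule.smul_mem _ s h)
    (fun a b ha hb => add_mem ha hb)

theorem Str.span_D : Submodule.span ℂ (S.D : Set S.W) = ⊤ := by
  rw [eq_top_iff]
  intro w _
  refine S.D_form.inductionOn w (fun w => w ∈ Submodule.span ℂ (S.D : Set S.W)) (zero_mem _)
    (fun b => Submodule.subset_span b.2) (fun s n h => Submodule.smul_mem _ s h)
    (fun a b ha hb => add_mem ha hb)

theorem isSub_top : IsSub S S.B where
  le := le_rfl
  hodge := by
    change S.cx S.B ≤ _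
    rw [Str.cx_B]
    simp only [top_inf_eq]
    rw [S.hodge_internal.submodule_iSup_eq_top]
  deRham := by
    rw [Str.cx_B, ← Str.span_D (S := S)]
    refine Submodule.span_mono fun x hx => ⟨hx, ?_⟩
    rw [Str.span_D]
    exact Submodule.mem_top

theorem conj_cx {M : Submodule ℚ S.W} (hM : M ≤ S.B) {w : S.W} (hw : w ∈ S.cx M) :
    S.conj w ∈ S.cx M := by
  induction hw using Submodule.span_induction with
  | mem x hx =>
    rw [S.conj_B x (hM hx)]
    exact Submodule.subset_span hx
  | zero =>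
    rw [map_zero]
    exact zero_mem _
  | add x y _ _ hx hy =>
    rw [map_add]
    exact add_mem hx hy
  | smul a x _ hx =>
    rw [LinearMap.map_smulₛₗ]
    exact Submodule.smul_mem _ _ hx

/-- Hodge decomposition inside a substructure. -/
theorem hodge_comp {U : Submodule ℂ S.W} (hU : U ≤ ⨆ p, U ⊓ S.hodge p) {x : S.W} (hx : x ∈ U) :
    ∃ u : ℕ → S.W, (∀ p, u p ∈ U) ∧ (∀ p, u p ∈ S.hodge p) ∧
      x = ∑ p ∈ Finset.range (S.wt + 1), u p := by
  classical
  obtain ⟨f, hf, hx⟩ := (Submodule.mem_iSup_iff_exists_finsupp _ _).1 (hU hx)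
  refine ⟨f, fun p => (hf p).1, fun p => (hf p).2, ?_⟩
  rw [← hx, Finsupp.sum]
  apply Finset.sum_subset
  · intro p hp
    rw [Finset.mem_range]
    by_contra h
    have h1 : S.wt < p := by omega
    have h2 : f p ∈ S.hodge p := (hf p).2
    rw [S.hodge_large p h1, Submodule.mem_bot] at h2
    exact (Finsupp.mem_support_iff.1 hp) h2
  · intro p _ hp
    exact Finsupp.notMem_support_iff.1 hp

theorem pol_comp (P : Pol S) {u : ℕ → S.W} (hu : ∀ p, u p ∈ S.hodge p) {p : ℕ}
    (hp : p ∈ Finset.range (S.wt + 1)) {y : S.W} (hy : y ∈ S.hodge (S.wt - p)) :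
    P.E (∑ q ∈ Finset.range (S.wt + 1), u q) y = P.E (u p) y := by
  have hp' := Finset.mem_range.1 hp
  rw [map_sum, LinearMap.sum_apply]
  apply Finset.sum_eq_single_of_mem p hp
  intro q _ hq
  exact P.orth q (S.wt - p) (by omega) _ (hu q) _ hy

theorem pol_pos_ne (P : Pol S) {p : ℕ} (hp : p ≤ S.wt) {x : S.W} (hx : x ∈ S.hodge p)
    (h : P.E x (S.conj x) = 0) : x = 0 := by
  by_contra hne
  obtain ⟨r, hr, h1⟩ := P.pos p hp x hx hne
  rw [h, mul_zero] at h1
  have : (r : ℂ) = 0 := h1.symm
  rw [Complex.ofReal_eq_zero] at this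
  exact hr.ne' this

/-- Nondegeneracy of the polarisation on a substructure. -/
theorem pol_nondeg (P : Pol S) {M : Submodule ℚ S.W} (hM : IsSub S M) {x : S.W}
    (hx : x ∈ S.cx M) (h : ∀ y ∈ S.cx M, P.E x y = 0) : x = 0 := by
  obtain ⟨u, hu1, hu2, hxu⟩ := hodge_comp hM.hodge hx
  rw [hxu]
  refine Finset.sum_eq_zero fun p hp => ?_
  have hp' : p ≤ S.wt := by
    have := Finset.mem_range.1 hp
    omega
  apply pol_pos_ne P hp' (hu2 p)
  have h1 := pol_comp P hu2 hp (S.hodge_conj p hp' _ (hu2 p))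
  rw [← hxu] at h1
  rw [← h1]
  exact h _ (conj_cx hM.le (hu1 p))

/-- The polarisation and `nabB`. -/
theorem pol_nabB (P : Pol S) (δ : Derivation Qbar ℂ ℂ) (x y : S.W) :
    δ (P.E x y) = P.E (S.nabB δ x) y + P.E x (S.nabB δ y) := by
  refine S.B_form.inductionOn x
    (fun x => δ (P.E x y) = P.E (S.nabB δ x) y + P.E x (S.nabB δ y)) ?_ ?_ ?_ ?_
  · simp
  · intro b
    rw [Submodule.subtype_apply, S.nabB_B δ b.2, map_zero, LinearMap.zero_apply, zero_add]
    refine S.B_form.inductionOn y
      (fun y => δ (P.E (b : S.W) y) = P.E (b : S.W) (S.nabB δ y)) ?_ ?_ ?_ ?_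
    · simp
    · intro b'
      rw [Submodule.subtype_apply, S.nabB_B δ b'.2, map_zero]
      obtain ⟨q, hq⟩ := P.rat _ b.2 _ b'.2
      rw [hq]
      exact der_of_isAlgebraic δ (isAlgebraic_algebraMap q)
    · intro s n ih
      rw [map_smul, smul_eq_mul, Derivation.leibniz, ih, S.nabB_smul, map_add, map_smul, map_smul]
      simp only [smul_eq_mul]
      ring
    · intro a c ha hc
      rw [map_add, map_add, ha, hc, map_add, map_add]
  · intro s n ih
    rw [map_smul, LinearMap.smul_apply, smul_eq_mul, Derivation.leibniz, ih, S.nabB_smul, map_add,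
      map_smul, map_smul, LinearMap.add_apply, LinearMap.smul_apply, LinearMap.smul_apply,
      LinearMap.smul_apply]
    simp only [smul_eq_mul]
    ring
  · intro a c ha hc
    rw [map_add, LinearMap.add_apply, map_add, ha, hc, map_add, map_add, LinearMap.add_apply,
      LinearMap.add_apply]
    ring

/-- The logarithmic derivative of `2 π i`. -/
def cpi (δ : Derivation Qbar ℂ ℂ) : ℂ := δ (2 * Real.pi * I) / (2 * Real.pi * I)

theorem two_pi_I_ne' : (2 * (Real.pi : ℂ) * I) ≠ 0 := by
  have h := two_pi_I_ne 1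
  rwa [pow_one] at h

theorem der_two_pi_pow (δ : Derivation Qbar ℂ ℂ) (n : ℕ) :
    δ ((2 * (Real.pi : ℂ) * I) ^ n) = n * cpi δ * (2 * Real.pi * I) ^ n := by
  have h1 := der_zpow δ two_pi_I_ne' (n : ℤ)
  rw [zpow_natCast, div_eq_iff (pow_ne_zero _ two_pi_I_ne')] at h1
  rw [h1]
  simp [cpi]

/-- The polarisation and `nabD`. -/
theorem pol_nabD (P : Pol S) (δ : Derivation Qbar ℂ ℂ) (x y : S.W) :
    δ (P.E x y) = P.E (S.nabD δ x) y + P.E x (S.nabD δ y) + S.wt * cpi δ * P.E x y := by
  refine S.D_form.inductionOn x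
    (fun x => δ (P.E x y) = P.E (S.nabD δ x) y + P.E x (S.nabD δ y) +
      S.wt * cpi δ * P.E x y) ?_ ?_ ?_ ?_
  · simp
  · intro b
    rw [Submodule.subtype_apply, S.nabD_D δ b.2, map_zero, LinearMap.zero_apply, zero_add]
    refine S.D_form.inductionOn y
      (fun y => δ (P.E (b : S.W) y) = P.E (b : S.W) (S.nabD δ y) +
        S.wt * cpi δ * P.E (b : S.W) y) ?_ ?_ ?_ ?_
    · simp
    · intro b'
      rw [Submodule.subtype_apply, S.nabD_D δ b'.2, map_zero, zero_add]
      obtain ⟨a, ha, hq⟩ := P.dR _ b.2 _ b'.2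
      rw [hq, Derivation.leibniz, der_of_isAlgebraic δ ha, smul_zero, zero_add, smul_eq_mul,
        der_two_pi_pow]
      ring
    · intro s n ih
      rw [map_smul, smul_eq_mul, Derivation.leibniz, ih, S.nabD_smul, map_add, map_smul, map_smul]
      simp only [smul_eq_mul]
      ring
    · intro a c ha hc
      rw [map_add, map_add, ha, hc, map_add, map_add]
      ring
  · intro s n ih
    rw [map_smul, LinearMap.smul_apply, smul_eq_mul, Derivation.leibniz, ih, S.nabD_smul, map_add,
      map_smul, map_smul, LinearMap.add_apply, LinearMap.smul_apply, LinearMap.smul_apply,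
      LinearMap.smul_apply]
    simp only [smul_eq_mul]
    ring
  · intro a c ha hc
    rw [map_add, LinearMap.add_apply, map_add, ha, hc, map_add, map_add, LinearMap.add_apply,
      LinearMap.add_apply]
    ring

end basic

section rational

variable {S : Str}

/-- a rational linear functional on `ℂ` with value one at one -/
theorem exists_ell : ∃ l : ℂ →ₗ[ℚ] ℚ, l 1 = 1 := by
  obtain ⟨f, hf⟩ := Module.Projective.exists_dual_ne_zero ℚ (one_ne_zero (α := ℂ))
  refine ⟨(f 1)⁻¹ • f, ?_⟩
  rw [LinearMap.smul_apply, smul_eq_mul, inv_mul_cancel₀ hf]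

theorem rat_smul' (q : ℚ) (w : S.W) : (q : ℂ) • w = q • w := by
  rw [← eq_ratCast (algebraMap ℚ ℂ), algebraMap_smul]

/-- the rational part of a vector -/
def rpart (S : Str) (l : ℂ →ₗ[ℚ] ℚ) : S.W →+ S.W := nab S.B_form ((Algebra.linearMap ℚ ℂ).comp l)

theorem rpart_smul (l : ℂ →ₗ[ℚ] ℚ) (c : ℂ) {b : S.W} (hb : b ∈ S.B) :
    rpart S l (c • b) = ((l c : ℚ) : ℂ) • b := nab_smul_mem S.B_form _ c ⟨b, hb⟩

theorem rpart_cx (l : ℂ →ₗ[ℚ] ℚ) {M : Submodule ℚ S.W} (hM : M ≤ S.B) {w : S.W}
    (hw : w ∈ S.cx M) : rpart S l w ∈ M := by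
  have h : ∀ c : ℂ, rpart S l (c • w) ∈ M := by
    induction hw using Submodule.span_induction with
    | mem x hx =>
      intro c
      rw [rpart_smul l c (hM hx), rat_smul']
      exact M.smul_mem _ hx
    | zero =>
      intro c
      rw [smul_zero, map_zero]
      exact zero_mem _
    | add x y _ _ hx hy =>
      intro c
      rw [smul_add, map_add]
      exact add_mem (hx c) (hy c)
    | smul a x _ hx =>
      intro c
      rw [smul_smul]
      exact hx _
  have h1 := h 1
  rwa [one_smul] at h1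

theorem rpart_mem_B (l : ℂ →ₗ[ℚ] ℚ) (w : S.W) : rpart S l w ∈ S.B := by
  apply rpart_cx l le_rfl
  rw [Str.cx_B]
  exact Submodule.mem_top

theorem rpart_B (l : ℂ →ₗ[ℚ] ℚ) (hl : l 1 = 1) {b : S.W} (hb : b ∈ S.B) : rpart S l b = b := by
  have h := rpart_smul l 1 hb
  rwa [one_smul, hl, Rat.cast_one, one_smul] at h

/-- rational vectors of a complexification -/
theorem mem_of_cx {M : Submodule ℚ S.W} (hM : M ≤ S.B) {w : S.W} (hw : w ∈ S.cx M)
    (hB : w ∈ S.B) : w ∈ M := by
  obtain ⟨l, hl⟩ := exists_ell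
  rw [← rpart_B l hl hB]
  exact rpart_cx l hM hw

theorem pol_rpart (P : Pol S) (l : ℂ →ₗ[ℚ] ℚ) (w : S.W) {y : S.W} (hy : y ∈ S.B) :
    P.E (rpart S l w) y = ((l (P.E w y) : ℚ) : ℂ) := by
  have h : ∀ c : ℂ, P.E (rpart S l (c • w)) y = ((l (P.E (c • w) y) : ℚ) : ℂ) := by
    refine S.B_form.inductionOn w
      (fun w => ∀ c : ℂ, P.E (rpart S l (c • w)) y = ((l (P.E (c • w) y) : ℚ) : ℂ)) ?_ ?_ ?_ ?_
    · intro c
      simp
    · intro b c
      rw [Submodule.subtype_apply, rpart_smul l c b.2, map_smul, map_smul, LinearMap.smul_apply,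
        LinearMap.smul_apply]
      obtain ⟨q, hq⟩ := P.rat _ b.2 _ hy
      rw [hq, smul_eq_mul, smul_eq_mul]
      have h1 : c * (q : ℂ) = q • c := by
        rw [Rat.smul_def, mul_comm]
      rw [h1, map_smul, smul_eq_mul]
      push_cast
      ring
    · intro s n ih c
      rw [smul_smul]
      exact ih _
    · intro a b ha hb c
      rw [smul_add, map_add, map_add, LinearMap.add_apply, ha, hb, map_add, LinearMap.add_apply,
        map_add]
      push_cast
      ring
  have h1 := h 1
  rwa [one_smul] at h1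

end rational

end GD
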