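import Mathlib
import Pool.Agent.H44.GD.Sub

/-!
# Substructures of a polarised structure: projectors, simple constituents
-/

noncomputable section

namespace GD

open Complex Module

variable {S : Str}

/-- Orthogonal projector onto a substructure. -/
theorem exists_proj (P : Pol S) {M : Submodule ℚ S.W} (hM : IsSub S M) :
    ∃ p : S.W →ₗ[ℂ] S.W, IsHom S S p ∧ (∀ w ∈ S.cx M, p w = w) ∧ ∀ w, p w ∈ S.cx M := by
  classical
  -- the map to the dual
  let Φ : S.cx M →ₗ[ℂ] Module.Dual ℂ (S.cx M) :=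
    { toFun := fun x => (P.E (x : S.W)).comp (S.cx M).subtype
      map_add' := fun x y => by
        ext z
        simp
      map_smul' := fun c x => by
        ext z
        simp }
  have hΦ : ∀ x y : S.cx M, Φ x y = P.E (x : S.W) (y : S.W) := fun _ _ => rfl
  have hinj : Function.Injective Φ := by
    rw [← LinearMap.ker_eq_bot, LinearMap.ker_eq_bot']
    intro x hx
    apply Subtype.ext
    apply pol_nondeg P hM x.2
    intro y hy
    have h1 := LinearMap.congr_fun hx ⟨y, hy⟩
    exact h1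
  let Ψ : S.cx M ≃ₗ[ℂ] Module.Dual ℂ (S.cx M) :=
    LinearMap.linearEquivOfInjective Φ hinj (Subspace.dual_finrank_eq).symm
  let r : S.W →ₗ[ℂ] Module.Dual ℂ (S.cx M) :=
    { toFun := fun x => (P.E x).comp (S.cx M).subtype
      map_add' := fun x y => by
        ext z
        simp
      map_smul' := fun c x => by
        ext z
        simp }
  let p : S.W →ₗ[ℂ] S.W := (S.cx M).subtype.comp (Ψ.symm.toLinearMap.comp r)
  have hpm : ∀ w, p w ∈ S.cx M := fun w => (Ψ.symm (r w)).2
  have hpE : ∀ w, ∀ y ∈ S.cx M, P.E (p w) y = P.E w y := by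
    intro w y hy
    have h1 : Ψ (Ψ.symm (r w)) = r w := Ψ.apply_symm_apply _
    exact LinearMap.congr_fun h1 ⟨y, hy⟩
  have hpu : ∀ w, ∀ u ∈ S.cx M, (∀ y ∈ S.cx M, P.E u y = P.E w y) → p w = u := by
    intro w u hu h
    apply sub_eq_zero.1
    apply pol_nondeg P hM (sub_mem (hpm w) hu)
    intro y hy
    rw [map_sub, LinearMap.sub_apply, hpE w y hy, h y hy, sub_self]
  refine ⟨p, ⟨rfl, ?_, ?_, ?_⟩, fun w hw => hpu w w hw fun _ _ => rfl, hpm⟩
  · -- rational
    intro b hb
    obtain ⟨l, hl⟩ := exists_ell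
    have h1 : p b = rpart S l (p b) := by
      apply hpu b
      · exact Submodule.subset_span (rpart_cx l hM.le (hpm b))
      · intro y hy
        induction hy using Submodule.span_induction with
        | mem y hy =>
          rw [pol_rpart P l _ (hM.le hy), hpE b y (Submodule.subset_span hy)]
          obtain ⟨q, hq⟩ := P.rat _ hb _ (hM.le hy)
          rw [hq]
          have h2 : (q : ℂ) = q • (1 : ℂ) := by
            rw [Rat.smul_def, mul_one]
          rw [h2, map_smul, hl, smul_eq_mul, mul_one, Rat.smul_def, mul_one]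
        | zero => rw [map_zero, map_zero]
        | add x y _ _ hx hy => rw [map_add, map_add, hx, hy]
        | smul a x _ hx => rw [map_smul, map_smul, hx]
    rw [h1]
    exact hM.le (rpart_cx l hM.le (hpm b))
  · -- de Rham
    apply maps_D_of_nabD p
    intro δ w
    have hst : ∀ y ∈ S.cx M, S.nabD δ y ∈ S.cx M := by
      intro y hy
      exact nabD_span δ (S.cx M) (by simpa [Set.inter_def] using hM.deRham) hy
    symm
    apply hpu _ _ (hst _ (hpm w))
    intro y hy
    have h1 := pol_nabD P δ (p w) y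
    have h2 := pol_nabD P δ w y
    rw [hpE w y hy, hpE w _ (hst y hy)] at h1
    rw [h1] at h2
    linear_combination h2
  · -- Hodge
    intro q w hw
    obtain ⟨u, hu1, hu2, hxu⟩ := hodge_comp hM.hodge (hpm w)
    have h0 : ∀ r ∈ Finset.range (S.wt + 1), r ≠ q → u r = 0 := by
      intro r hr hrq
      have hr' : r ≤ S.wt := by
        have := Finset.mem_range.1 hr
        omega
      apply pol_pos_ne P hr' (hu2 r)
      have hc := S.hodge_conj r hr' _ (hu2 r)
      have h1 := pol_comp P hu2 hr hc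
      rw [← hxu, hpE w _ (conj_cx hM.le (hu1 r))] at h1
      rw [← h1]
      exact P.orth q (S.wt - r) (by omega) _ hw _ hc
    rw [hxu]
    refine Submodule.sum_mem _ fun r hr => ?_
    by_cases hrq : r = q
    · rw [← hrq]
      exact hu2 r
    · rw [h0 r hr hrq]
      exact zero_mem _

theorem IsHom.id (S : Str) : IsHom S S LinearMap.id :=
  ⟨rfl, fun _ h => h, fun _ h => h, fun _ _ h => h⟩

theorem IsHom.comp {R T : Str} {f : S.W →ₗ[ℂ] R.W} {g : R.W →ₗ[ℂ] T.W} (hg : IsHom R T g)
    (hf : IsHom S R f) : IsHom S T (g.comp f) :=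
  ⟨hf.wt.trans hg.wt, fun x h => hg.betti _ (hf.betti x h),
    fun x h => hg.deRham _ (hf.deRham x h), fun p x h => hg.hodge p _ (hf.hodge p x h)⟩

theorem IsHom.sub {R : Str} {f g : S.W →ₗ[ℂ] R.W} (hf : IsHom S R f)
    (hg : IsHom S R g) : IsHom S R (f - g) :=
  ⟨hf.wt, fun x h => sub_mem (hf.betti x h) (hg.betti x h),
    fun x h => sub_mem (hf.deRham x h) (hg.deRham x h),
    fun p x h => sub_mem (hf.hodge p x h) (hg.hodge p x h)⟩

/-- the image of a rational subspace -/
def imgQ {R : Str} (f : S.W →ₗ[ℂ] R.W) (M : Submodule ℚ S.W) : Submodule ℚ R.W where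
  carrier := {y | ∃ x ∈ M, f x = y}
  add_mem' := by
    rintro _ _ ⟨x, hx, rfl⟩ ⟨y, hy, rfl⟩
    exact ⟨x + y, add_mem hx hy, map_add _ _ _⟩
  zero_mem' := ⟨0, zero_mem _, map_zero _⟩
  smul_mem' := by
    rintro q _ ⟨x, hx, rfl⟩
    refine ⟨q • x, M.smul_mem _ hx, ?_⟩
    rw [← rat_smul', map_smul, rat_smul']

theorem cx_imgQ {R : Str} (f : S.W →ₗ[ℂ] R.W) (M : Submodule ℚ S.W) :
    R.cx (imgQ f M) = (S.cx M).map f := by
  rw [Submodule.map_span]
  rfl

theorem isSub_img {R : Str} {f : S.W →ₗ[ℂ] R.W} (hf : IsHom S R f) {M : Submodule ℚ S.W}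
    (hM : IsSub S M) : IsSub R (imgQ f M) where
  le := by
    rintro _ ⟨x, hx, rfl⟩
    exact hf.betti x (hM.le hx)
  hodge := by
    change R.cx _ ≤ _
    rw [cx_imgQ]
    rintro _ ⟨x, hx, rfl⟩
    obtain ⟨u, hu1, hu2, hxu⟩ := hodge_comp hM.hodge hx
    rw [hxu, map_sum]
    refine Submodule.sum_mem _ fun p _ => ?_
    exact Submodule.mem_iSup_of_mem p ⟨Submodule.mem_map_of_mem (hu1 p), hf.hodge p _ (hu2 p)⟩
  deRham := by
    rw [cx_imgQ]
    have h1 : (S.cx M).map f ≤
        (Submodule.span ℂ {x | x ∈ S.D ∧ x ∈ S.cx M}).map f := Submodule.map_mono hM.deRham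
    refine h1.trans ?_
    rw [Submodule.map_span, Submodule.span_le]
    rintro _ ⟨x, ⟨hx1, hx2⟩, rfl⟩
    exact Submodule.subset_span ⟨hf.deRham x hx1, Submodule.mem_map_of_mem hx2⟩

/-- An endomorphism of a substructure extends. -/
theorem IsEnd.extend (P : Pol S) {M : Submodule ℚ S.W} (hM : IsSub S M)
    {g : Module.End ℂ (S.cx M)} (hg : IsEnd S M g) :
    ∃ f : S.W →ₗ[ℂ] S.W, IsHom S S f ∧ (∀ x : S.cx M, f x = g x) ∧ ∀ w, f w ∈ S.cx M := by
  obtain ⟨p, hp, hp1, hp2⟩ := exists_proj P hM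
  let f : S.W →ₗ[ℂ] S.W := (S.cx M).subtype.comp (g.comp (p.codRestrict (S.cx M) hp2))
  have hf : ∀ w, f w = g ⟨p w, hp2 w⟩ := fun _ => rfl
  refine ⟨f, ⟨rfl, ?_, ?_, ?_⟩, ?_, fun w => (g ⟨p w, hp2 w⟩).2⟩
  · intro x hx
    rw [hf]
    apply hM.le
    apply hg.betti
    exact mem_of_cx hM.le (hp2 x) (hp.betti x hx)
  · intro x hx
    rw [hf]
    exact hg.deRham _ (hp.deRham x hx)
  · intro q x hx
    rw [hf]
    exact hg.hodge q _ (hp.hodge q x hx)
  · intro x
    rw [hf]
    congr 2
    exact Subtype.ext (hp1 x x.2)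

/-- A natural derivation preserves the substructures. -/
theorem nat_cx (P : Pol S) {M : Submodule ℚ S.W} (hM : IsSub S M)
    {T : (R : Str) → Module.End ℂ R.W} (hT : IsNat T) : ∀ w ∈ S.cx M, T S w ∈ S.cx M := by
  obtain ⟨p, hp, hp1, hp2⟩ := exists_proj P hM
  intro w hw
  rw [← hp1 w hw, hT.nat S S p hp w]
  exact hp2 _

/-- A natural derivation commutes with the endomorphisms of substructures. -/
theorem nat_end (P : Pol S) {M : Submodule ℚ S.W} (hM : IsSub S M)
    {T : (R : Str) → Module.End ℂ R.W} (hT : IsNat T) {g : Module.End ℂ (S.cx M)}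
    (hg : IsEnd S M g) (x : S.cx M) :
    T S (g x) = g ⟨T S x, nat_cx P hM hT x x.2⟩ := by
  obtain ⟨f, hf, hf1, -⟩ := hg.extend P hM
  rw [← hf1, hT.nat S S f hf, ← hf1]

/-- `A δ` is a natural derivation. -/
theorem isNat_A (δ : Derivation Qbar ℂ ℂ) : IsNat (fun R => R.A δ) where
  nat R R' f hf x := A_nat δ f hf.betti hf.deRham x
  der P Q R μ hμ x y := A_bil δ μ hμ.betti hμ.deRham x y

/-- Every substructure is contained in the sum of the simple ones. -/
theorem le_iSup_simple (P : Pol S) : ∀ (n : ℕ) (N : Submodule ℚ S.W), IsSub S N →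
    Module.finrank ℚ N = n → S.cx N ≤ ⨆ M : {M : Submodule ℚ S.W // IsSimple S M}, S.cx M.1 := by
  intro n
  induction n using Nat.strong_induction_on with
  | _ n ih =>
    intro N hN hn
    by_cases h0 : N = ⊥
    · rw [h0]
      have : S.cx (⊥ : Submodule ℚ S.W) = ⊥ := by simp
      rw [this]
      exact bot_le
    by_cases hs : IsSimple S N
    · exact le_iSup (fun M : {M : Submodule ℚ S.W // IsSimple S M} => S.cx M.1) ⟨N, hs⟩
    -- a proper substructure
    have h1 : ∃ N', N' ≤ N ∧ IsSub S N' ∧ N' ≠ ⊥ ∧ N' ≠ N := by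
      by_contra hcon
      push Not at hcon
      apply hs
      refine ⟨hN, h0, fun N' h1 h2 => ?_⟩
      by_cases h3 : N' = ⊥
      · exact Or.inl h3
      · exact Or.inr (hcon N' h1 h2 h3)
    obtain ⟨N', hN'1, hN'2, hN'3, hN'4⟩ := h1
    haveI := finite_sub hN.le
    haveI := finite_sub hN'2.le
    obtain ⟨p, hp, hp1, hp2⟩ := exists_proj P hN'2
    -- the complement
    have hq : IsHom S S (LinearMap.id - p) := (IsHom.id S).sub hp
    have hN'' := isSub_img hq hN
    have hpN : ∀ x ∈ N, p x ∈ N' := fun x hx => mem_of_cx hN'2.le (hp2 x) (hp.betti x (hN.le hx))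
    have hle : imgQ (LinearMap.id - p) N ≤ N := by
      rintro _ ⟨x, hx, rfl⟩
      exact sub_mem hx (hN'1 (hpN x hx))
    haveI := finite_sub hN''.le
    have hker : ∀ y ∈ imgQ (LinearMap.id - p) N, p y = 0 := by
      rintro _ ⟨x, _, rfl⟩
      rw [LinearMap.sub_apply, LinearMap.id_apply, map_sub, hp1 (p x) (hp2 x), sub_self]
    have hlt1 : Module.finrank ℚ N' < n := by
      rw [← hn]
      exact Submodule.finrank_lt_finrank_of_lt (lt_of_le_of_ne hN'1 hN'4)
    have hlt2 : Module.finrank ℚ (imgQ (LinearMap.id - p) N : Submodule ℚ S.W) < n := by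
      rw [← hn]
      apply Submodule.finrank_lt_finrank_of_lt
      refine lt_of_le_of_ne hle fun heq => ?_
      apply hN'3
      rw [Submodule.eq_bot_iff]
      intro x hx
      have h2 : x ∈ imgQ (LinearMap.id - p) N := by
        rw [heq]
        exact hN'1 hx
      rw [← hp1 x (Submodule.subset_span hx)]
      exact hker x h2
    have h3 := ih _ hlt1 N' hN'2 rfl
    have h4 := ih _ hlt2 _ hN'' rfl
    change Submodule.span ℂ (N : Set S.W) ≤ _
    rw [Submodule.span_le]
    intro x hx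
    have h5 : x = p x + (LinearMap.id - p : S.W →ₗ[ℂ] S.W) x := by
      rw [LinearMap.sub_apply, LinearMap.id_apply]
      abel
    rw [h5]
    exact add_mem (h3 (Submodule.subset_span (hpN x hx)))
      (h4 (Submodule.subset_span ⟨x, hx, rfl⟩))

/-- A polarised structure is the sum of its simple substructures. -/
theorem iSup_simple (P : Pol S) :
    ⨆ M : {M : Submodule ℚ S.W // IsSimple S M}, S.cx M.1 = ⊤ := by
  rw [eq_top_iff, ← Str.cx_B]
  exact le_iSup_simple P _ _ isSub_top rfl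

end GD
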