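import Mathlib
import Pool.Agent.H44.GD.Sub2
import Pool.Agent.H27.GD.Nat

/-!
# Eigenspaces for the multiplication by a number field
-/

noncomputable section

namespace GD

open Complex Module

section field

variable (F : Type) [Field F] [NumberField F]

theorem bas_exp (x : F) : x = ∑ i, (Algebra.trace ℚ F (bad F i * x)) • bas F i := by
  conv_lhs => rw [← (bas F).sum_repr x]
  refine Finset.sum_congr rfl fun j _ => ?_
  congr 1
  conv_rhs => rw [← (bas F).sum_repr x, Finset.mul_sum, map_sum]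
  simp only [mul_smul_comm, map_smul, trace_bad_bas, smul_eq_mul, mul_ite, mul_one, mul_zero,
    Finset.sum_ite_eq', Finset.mem_univ, if_true]

theorem bad_exp (x : F) : x = ∑ i, (Algebra.trace ℚ F (x * bas F i)) • bad F i := by
  conv_lhs => rw [← (bad F).sum_repr x]
  refine Finset.sum_congr rfl fun j _ => ?_
  congr 1
  conv_rhs => rw [← (bad F).sum_repr x, Finset.sum_mul, map_sum]
  simp only [smul_mul_assoc, map_smul, trace_bad_bas, smul_eq_mul, mul_ite, mul_one, mul_zero]
  simp

theorem emb_rat_smul (τ : F →+* ℂ) (q : ℚ) (x : F) : τ (q • x) = q * τ x := by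
  rw [Rat.smul_def, map_mul, map_ratCast]

end field

section eig

variable {S : Str} {M : Submodule ℚ S.W} {K : Type} [Field K]
  (ι : K →+* Module.End ℂ (S.cx M))

theorem mem_eig {τ : K →+* ℂ} {w : S.W} :
    w ∈ eig ι τ ↔ ∃ h : w ∈ S.cx M, ∀ a, ι a ⟨w, h⟩ = τ a • ⟨w, h⟩ := by
  rw [eig, Submodule.mem_map]
  constructor
  · rintro ⟨x, hx, rfl⟩
    refine ⟨x.2, fun a => ?_⟩
    have h1 := (Submodule.mem_iInf _).1 hx a
    exact Module.End.mem_eigenspace_iff.1 h1
  · rintro ⟨h, hw⟩
    refine ⟨⟨w, h⟩, ?_, rfl⟩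
    rw [Submodule.mem_iInf]
    intro a
    exact Module.End.mem_eigenspace_iff.2 (hw a)

theorem coe_mem_eig {τ : K →+* ℂ} {x : S.cx M} :
    (x : S.W) ∈ eig ι τ ↔ ∀ a, ι a x = τ a • x := by
  rw [mem_eig]
  exact ⟨fun ⟨_, h⟩ => h, fun h => ⟨x.2, h⟩⟩

theorem eig_le (τ : K →+* ℂ) : eig ι τ ≤ S.cx M := by
  intro w hw
  exact ((mem_eig ι).1 hw).1

variable [NumberField K]

/-- the projector onto the eigenspace -/
def prj (τ : K →+* ℂ) : Module.End ℂ (S.cx M) := ∑ i, τ (bad K i) • ι (bas K i)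

theorem prj_apply (τ : K →+* ℂ) (x : S.cx M) :
    prj ι τ x = ∑ i, τ (bad K i) • ι (bas K i) x := by
  rw [prj, LinearMap.sum_apply]
  rfl

theorem ratC_smul {U : Type*} [AddCommGroup U] [Module ℂ U] [Module ℚ U] (q : ℚ) (x : U) :
    q • x = (q : ℂ) • x := by
  rw [← eq_ratCast (algebraMap ℚ ℂ), algebraMap_smul]

theorem iota_rat (q : ℚ) (a : K) (x : S.cx M) : ι (q • a) x = (q : ℂ) • ι a x := by
  have h1 : ι (q • a) = q • ι a := map_rat_smul ι q a
  rw [h1, LinearMap.smul_apply, ratC_smul]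

theorem sum_prj (x : S.cx M) : ∑ τ : K →+* ℂ, prj ι τ x = x := by
  simp only [prj_apply]
  rw [Finset.sum_comm]
  simp only [← Finset.sum_smul, ← trace_sum]
  have h1 := congrArg (fun a => ι a x) (bas_exp K 1)
  simp only [map_one, map_sum, LinearMap.sum_apply, mul_one, iota_rat] at h1
  rw [← h1]
  rfl

theorem prj_mem (τ : K →+* ℂ) (x : S.cx M) (a : K) : ι a (prj ι τ x) = τ a • prj ι τ x := by
  have h1 : ι a (prj ι τ x) = ∑ i, τ (bad K i) • ι (a * bas K i) x := by
    rw [prj_apply, map_sum]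
    refine Finset.sum_congr rfl fun i _ => ?_
    rw [map_smul, map_mul]
    rfl
  have h2 : ∀ i, ι (a * bas K i) x =
      ∑ j, ((Algebra.trace ℚ K (bad K j * (a * bas K i)) : ℚ) : ℂ) • ι (bas K j) x := by
    intro i
    conv_lhs => rw [bas_exp K (a * bas K i)]
    rw [map_sum, LinearMap.sum_apply]
    exact Finset.sum_congr rfl fun j _ => iota_rat ι _ _ _
  have h3 : ∀ j, ∑ i, τ (bad K i) * ((Algebra.trace ℚ K (bad K j * (a * bas K i)) : ℚ) : ℂ) =
      τ a * τ (bad K j) := by
    intro j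
    rw [← map_mul]
    conv_rhs => rw [bad_exp K (a * bad K j)]
    rw [map_sum]
    refine Finset.sum_congr rfl fun i _ => ?_
    rw [emb_rat_smul, mul_comm]
    congr 3
    ring
  rw [h1]
  simp only [h2, Finset.smul_sum, smul_smul]
  rw [Finset.sum_comm]
  simp only [← Finset.sum_smul, h3]
  rw [prj_apply, Finset.smul_sum]
  simp only [smul_smul]

theorem prj_mem_eig (τ : K →+* ℂ) (x : S.cx M) : (prj ι τ x : S.W) ∈ eig ι τ :=
  (coe_mem_eig ι).2 (prj_mem ι τ x)

open scoped Classical in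
theorem prj_of_eig (τ τ' : K →+* ℂ) {x : S.cx M} (hx : (x : S.W) ∈ eig ι τ') :
    prj ι τ x = if τ' = τ then x else 0 := by
  rw [prj_apply]
  have h1 := (coe_mem_eig ι).1 hx
  simp only [h1, smul_smul, ← Finset.sum_smul, orth, ite_smul, one_smul, zero_smul]

/-- the complexification is the sum of the eigenspaces -/
theorem cx_le_iSup_eig : S.cx M ≤ ⨆ τ : K →+* ℂ, eig ι τ := by
  intro w hw
  have h1 := congrArg (Subtype.val : S.cx M → S.W) (sum_prj ι ⟨w, hw⟩)
  rw [AddSubmonoidClass.coe_finset_sum] at h1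
  have h2 : w = ∑ τ : K →+* ℂ, (prj ι τ ⟨w, hw⟩ : S.W) := h1.symm
  rw [h2]
  exact Submodule.sum_mem _ fun τ _ => Submodule.mem_iSup_of_mem τ (prj_mem_eig ι τ _)

end eig

section end'

variable {S : Str} {M : Submodule ℚ S.W}

theorem IsEnd.zero : IsEnd S M 0 :=
  ⟨fun _ _ => zero_mem _, fun _ _ => zero_mem _, fun _ _ _ => zero_mem _⟩

theorem IsEnd.one : IsEnd S M 1 := ⟨fun _ h => h, fun _ h => h, fun _ _ h => h⟩

theorem IsEnd.add {f g : Module.End ℂ (S.cx M)} (hf : IsEnd S M f) (hg : IsEnd S M g) :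
    IsEnd S M (f + g) :=
  ⟨fun x h => add_mem (hf.betti x h) (hg.betti x h),
    fun x h => add_mem (hf.deRham x h) (hg.deRham x h),
    fun p x h => add_mem (hf.hodge p x h) (hg.hodge p x h)⟩

theorem IsEnd.mul {f g : Module.End ℂ (S.cx M)} (hf : IsEnd S M f) (hg : IsEnd S M g) :
    IsEnd S M (f * g) :=
  ⟨fun x h => hf.betti _ (hg.betti x h), fun x h => hf.deRham _ (hg.deRham x h),
    fun p x h => hf.hodge p _ (hg.hodge p x h)⟩

theorem IsEnd.smulQ {f : Module.End ℂ (S.cx M)} (hf : IsEnd S M f) (q : ℚ) :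
    IsEnd S M (q • f) := by
  have h1 : ∀ x, (((q • f) x : S.cx M) : S.W) = q • (f x : S.W) := by
    intro x
    rfl
  have h2 : ∀ w : S.W, q • w = (q : ℂ) • w := fun w => ratC_smul q w
  refine ⟨fun x h => ?_, fun x h => ?_, fun p x h => ?_⟩
  · rw [h1]
    exact M.smul_mem _ (hf.betti x h)
  · rw [h1, h2]
    exact S.D_smul (isAlgebraic_algebraMap q) (hf.deRham x h)
  · rw [h1, h2]
    exact (S.hodge p).smul_mem _ (hf.hodge p x h)

variable (S M) in
/-- the centre of the algebra of endomorphisms -/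
def cen : Subalgebra ℚ (Module.End ℂ (S.cx M)) where
  carrier := {f | IsEnd S M f ∧ ∀ g, IsEnd S M g → f * g = g * f}
  mul_mem' := by
    rintro a b ⟨ha, ha'⟩ ⟨hb, hb'⟩
    refine ⟨ha.mul hb, fun g hg => ?_⟩
    rw [mul_assoc, hb' g hg, ← mul_assoc, ha' g hg, mul_assoc]
  add_mem' := by
    rintro a b ⟨ha, ha'⟩ ⟨hb, hb'⟩
    refine ⟨ha.add hb, fun g hg => ?_⟩
    rw [add_mul, mul_add, ha' g hg, hb' g hg]
  algebraMap_mem' := by
    intro q
    have h1 : (algebraMap ℚ (Module.End ℂ (S.cx M))) q = q • (1 : Module.End ℂ (S.cx M)) :=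
      Algebra.algebraMap_eq_smul_one q
    rw [h1]
    refine ⟨IsEnd.one.smulQ q, fun g _ => ?_⟩
    rw [smul_mul_assoc, mul_smul_comm, one_mul, mul_one]

theorem mem_cen {f : Module.End ℂ (S.cx M)} :
    f ∈ cen S M ↔ IsEnd S M f ∧ ∀ g, IsEnd S M g → f * g = g * f := Iff.rfl

/-- A nonzero endomorphism of a simple substructure is bijective. -/
theorem IsSimple.bij (P : Pol S) (hM : IsSimple S M) {f : Module.End ℂ (S.cx M)}
    (hf : IsEnd S M f) (h0 : f ≠ 0) : Function.Injective f := by
  obtain ⟨F, hF, hF1, hF2⟩ := hf.extend P hM.sub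
  have h1 := isSub_img hF hM.sub
  have hle : imgQ F M ≤ M := by
    rintro _ ⟨x, hx, rfl⟩
    have h2 := hF1 ⟨x, Submodule.subset_span hx⟩
    change F x = _ at h2
    rw [h2]
    exact hf.betti _ hx
  rcases hM.min _ hle h1 with h2 | h2
  · exfalso
    apply h0
    ext w
    have h3 : S.cx M ≤ LinearMap.ker F := by
      rw [Submodule.span_le]
      intro x hx
      have h4 : F x ∈ imgQ F M := ⟨x, hx, rfl⟩
      rw [h2, Submodule.mem_bot] at h4
      exact h4
    have h4 := h3 w.2
    rw [LinearMap.mem_ker, hF1] at h4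
    rw [h4]
    rfl
  · apply (LinearMap.injective_iff_surjective (f := f)).2
    intro y
    have h3 : (S.cx M).map F = S.cx M := by
      rw [← cx_imgQ, h2]
    have h4 : (y : S.W) ∈ (S.cx M).map F := by
      rw [h3]
      exact y.2
    obtain ⟨x, hx, hxy⟩ := h4
    refine ⟨⟨x, hx⟩, Subtype.ext ?_⟩
    rw [← hF1]
    exact hxy

theorem cen_finite (hM : M ≤ S.B) : Module.Finite ℚ (cen S M) := by
  haveI := finite_sub hM
  let Φ : cen S M →ₗ[ℚ] (M →ₗ[ℚ] M) :=
    { toFun := fun f =>
        { toFun := fun x => ⟨(f.1 ⟨x, Submodule.subset_span x.2⟩ : S.W),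
            f.2.1.betti ⟨x, Submodule.subset_span x.2⟩ x.2⟩
          map_add' := fun x y => by
            apply Subtype.ext
            have h1 : (⟨((x + y : M) : S.W), Submodule.subset_span (x + y).2⟩ : S.cx M) =
              ⟨x, Submodule.subset_span x.2⟩ + ⟨y, Submodule.subset_span y.2⟩ := rfl
            change ((f.1 ⟨((x + y : M) : S.W), _⟩ : S.cx M) : S.W) = _
            rw [h1, map_add]
            rfl
          map_smul' := fun q x => by
            apply Subtype.ext
            have h1 : (⟨((q • x : M) : S.W), Submodule.subset_span (q • x).2⟩ : S.cx M) =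
              (q : ℂ) • ⟨x, Submodule.subset_span x.2⟩ := by
              apply Subtype.ext
              exact ratC_smul q (x : S.W)
            change ((f.1 ⟨((q • x : M) : S.W), _⟩ : S.cx M) : S.W) = _
            rw [h1, map_smul]
            exact (ratC_smul q _).symm }
      map_add' := fun f g => by
        ext x
        rfl
      map_smul' := fun q f => by
        ext x
        rfl }
  have hΦ : ∀ (f : cen S M) (x : M), ((Φ f x : M) : S.W) =
    (f.1 ⟨x, Submodule.subset_span x.2⟩ : S.W) := fun _ _ => rfl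
  apply Module.Finite.of_injective Φ
  intro f g hfg
  apply Subtype.ext
  apply LinearMap.ext
  rintro ⟨w, hw⟩
  have h1 : ∀ (w : S.W) (hw : w ∈ S.cx M), f.1 ⟨w, hw⟩ = g.1 ⟨w, hw⟩ := by
    intro w hw
    induction hw using Submodule.span_induction with
    | mem x hx =>
      have h2 := congrArg (fun t => ((t ⟨x, hx⟩ : M) : S.W)) hfg
      simp only [hΦ] at h2
      exact Subtype.ext h2
    | zero =>
      have : (⟨0, zero_mem _⟩ : S.cx M) = 0 := rfl
      rw [this, map_zero, map_zero]
    | add x y hx hy hx' hy' =>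
      have : (⟨x + y, add_mem hx hy⟩ : S.cx M) = ⟨x, hx⟩ + ⟨y, hy⟩ := rfl
      rw [this, map_add, map_add, hx', hy']
    | smul a x hx hx' =>
      have : (⟨a • x, Submodule.smul_mem _ a hx⟩ : S.cx M) = a • ⟨x, hx⟩ := rfl
      rw [this, map_smul, map_smul, hx']
  exact h1 w hw

/-- The centre of the endomorphisms of a simple substructure is a number field. -/
theorem exists_center (P : Pol S) (hM : IsSimple S M) :
    ∃ (E : Type) (_ : Field E) (_ : NumberField E) (ι : E →+* Module.End ℂ (S.cx M)),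
      IsCentral ι ∧
      (∀ f, IsEnd S M f → (∀ g, IsEnd S M g → f * g = g * f) → ∃ a, f = ι a) ∧
      S.cx M ≤ ⨆ τ, eig ι τ := by
  haveI hfin := cen_finite hM.sub.le
  letI cr : CommRing (cen S M) :=
    { (inferInstance : Ring (cen S M)) with
      mul_comm := fun a b => Subtype.ext (a.2.2 b.1 b.2.1) }
  haveI : Nontrivial (S.cx M) := by
    rw [Submodule.nontrivial_iff_ne_bot]
    intro h
    apply hM.ne
    rw [Submodule.eq_bot_iff]
    intro x hx
    have h1 : x ∈ S.cx M := Submodule.subset_span hx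
    rw [h, Submodule.mem_bot] at h1
    exact h1
  haveI : Nontrivial (cen S M) := inferInstance
  haveI : NoZeroDivisors (cen S M) := by
    refine ⟨fun {a b} hab => ?_⟩
    by_cases ha : a = 0
    · exact Or.inl ha
    · right
      have ha' : a.1 ≠ 0 := fun h => ha (Subtype.ext h)
      have hinj := hM.bij P a.2.1 ha'
      apply Subtype.ext
      ext x
      have h1 : (a.1 * b.1) x = 0 := by
        have := congrArg (fun t : cen S M => t.1 x) hab
        exact this
      have h2 : a.1 (b.1 x) = a.1 0 := by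
        rw [map_zero]
        exact h1
      rw [hinj h2]
      rfl
  haveI : IsDomain (cen S M) := NoZeroDivisors.to_isDomain _
  letI fl : Field (cen S M) := fieldOfFiniteDimensional ℚ (cen S M)
  have hch : CharZero (cen S M) := algebraRat.charZero (cen S M)
  have hnf : NumberField (cen S M) :=
    { to_charZero := hch
      to_finiteDimensional := by
        have h1 : (cen S M).algebra = (DivisionRing.toRatAlgebra : Algebra ℚ (cen S M)) :=
          Subsingleton.elim _ _
        rw [← h1]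
        exact hfin }
  let ι : cen S M →+* Module.End ℂ (S.cx M) :=
    { toFun := fun a => a.1
      map_one' := rfl
      map_mul' := fun _ _ => rfl
      map_zero' := rfl
      map_add' := fun _ _ => rfl }
  refine ⟨cen S M, fl, hnf, ι, ⟨fun a => a.2.1, fun f hf a => (a.2.2 f hf).symm⟩, ?_, ?_⟩
  · intro f hf hf'
    exact ⟨⟨f, hf, fun g hg => hf' g hg⟩, rfl⟩
  · exact cx_le_iSup_eig ι

end end'

end GD
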