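import Mathlib
import Pool.Agent.H44.GD.Eig
import Pool.Agent.H27.GD.Tate

/-!
# Traces on the eigenspaces
-/

noncomputable section

namespace GD

open Complex Module

section tr

variable {W : Type} [AddCommGroup W] [Module ℂ W]

theorem trOn_of_stable {T : Module.End ℂ W} {U : Submodule ℂ W} (h : ∀ x ∈ U, T x ∈ U) :
    trOn T U = LinearMap.trace ℂ U (T.restrict h) := by
  rw [trOn, dif_pos h]

theorem trOn_smul (c : ℂ) {T : Module.End ℂ W} {U : Submodule ℂ W} (h : ∀ x ∈ U, T x ∈ U) :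
    trOn (c • T) U = c * trOn T U := by
  have h1 : ∀ x ∈ U, (c • T) x ∈ U := fun x hx => U.smul_mem _ (h x hx)
  rw [trOn_of_stable h, trOn_of_stable h1]
  have h2 : (c • T).restrict h1 = c • T.restrict h := rfl
  rw [h2, map_smul, smul_eq_mul]

theorem trOn_add {T T' : Module.End ℂ W} {U : Submodule ℂ W} (h : ∀ x ∈ U, T x ∈ U)
    (h' : ∀ x ∈ U, T' x ∈ U) : trOn (T + T') U = trOn T U + trOn T' U := by
  have h1 : ∀ x ∈ U, (T + T') x ∈ U := fun x hx => add_mem (h x hx) (h' x hx)
  rw [trOn_of_stable h, trOn_of_stable h', trOn_of_stable h1]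
  have h2 : (T + T').restrict h1 = T.restrict h + T'.restrict h' := rfl
  rw [h2, map_add]

theorem trOn_sum {α : Type*} (s : Finset α) {T : α → Module.End ℂ W} {U : Submodule ℂ W}
    (h : ∀ i ∈ s, ∀ x ∈ U, T i x ∈ U) : trOn (∑ i ∈ s, T i) U = ∑ i ∈ s, trOn (T i) U := by
  classical
  induction s using Finset.induction_on with
  | empty =>
    have h1 : ∀ x ∈ U, (0 : Module.End ℂ W) x ∈ U := fun x _ => by
      rw [LinearMap.zero_apply]
      exact zero_mem _
    rw [Finset.sum_empty, Finset.sum_empty, trOn_of_stable h1]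
    have h2 : (0 : Module.End ℂ W).restrict h1 = 0 := rfl
    rw [h2, map_zero]
  | insert a s ha ih =>
    rw [Finset.sum_insert ha, Finset.sum_insert ha, trOn_add (h a (Finset.mem_insert_self a s)),
      ih fun i hi => h i (Finset.mem_insert_of_mem hi)]
    intro x hx
    rw [LinearMap.sum_apply]
    exact Submodule.sum_mem _ fun i hi => h i (Finset.mem_insert_of_mem hi) x hx

/-- The trace of a commutator vanishes. -/
theorem trOn_br [FiniteDimensional ℂ W] {T T' : Module.End ℂ W} {U : Submodule ℂ W}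
    (h : ∀ x ∈ U, T x ∈ U) (h' : ∀ x ∈ U, T' x ∈ U) : trOn (T * T' - T' * T) U = 0 := by
  have h1 : ∀ x ∈ U, (T * T' - T' * T) x ∈ U := fun x hx =>
    sub_mem (h _ (h' x hx)) (h' _ (h x hx))
  rw [trOn_of_stable h1]
  have h2 : (T * T' - T' * T).restrict h1 =
    T.restrict h * T'.restrict h' - T'.restrict h' * T.restrict h := rfl
  rw [h2, map_sub, LinearMap.trace_mul_comm, sub_self]

theorem trOn_one [FiniteDimensional ℂ W] (U : Submodule ℂ W) :
    trOn (1 : Module.End ℂ W) U = finrank ℂ U := by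
  have h1 : ∀ x ∈ U, (1 : Module.End ℂ W) x ∈ U := fun x hx => hx
  rw [trOn_of_stable h1]
  have h2 : (1 : Module.End ℂ W).restrict h1 = LinearMap.id := rfl
  rw [h2, LinearMap.trace_id]

end tr

variable {S : Str} {M : Submodule ℚ S.W}

/-- The trace of a rational operator on the complexification is rational. -/
theorem trace_rat (hM : M ≤ S.B) (f : Module.End ℂ (S.cx M))
    (hf : ∀ x : S.cx M, (x : S.W) ∈ M → (f x : S.W) ∈ M) :
    ∃ q : ℚ, LinearMap.trace ℂ (S.cx M) f = q := by
  classical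
  haveI := finite_sub hM
  let b := Module.finBasis ℚ M
  let v : Fin (finrank ℚ M) → S.cx M := fun i => ⟨(b i : S.W), Submodule.subset_span (b i).2⟩
  have h1 : LinearIndependent ℚ (fun i => (b i : S.W)) :=
    b.linearIndependent.map' M.subtype (Submodule.ker_subtype M)
  have h2 : LinearIndependent ℂ (fun i => (b i : S.W)) :=
    form_lin S.B S.B_form _ (fun i => hM (b i).2) h1
  have h3 : LinearIndependent ℂ v := by
    apply LinearIndependent.of_comp (S.cx M).subtype
    exact h2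
  let B : Basis (Fin (finrank ℚ M)) ℂ (S.cx M) :=
    Basis.mk h3 (h3.span_eq_top_of_card_eq_finrank' (by
      rw [Fintype.card_fin]
      exact (finrank_span S M hM).symm)).ge
  have hB : ∀ i, B i = v i := fun i => by
    simp [B]
  have hrat : ∀ (m : M) i, B.repr ⟨(m : S.W), Submodule.subset_span m.2⟩ i =
      ((b.repr m i : ℚ) : ℂ) := by
    intro m i
    have h4 : (⟨(m : S.W), Submodule.subset_span m.2⟩ : S.cx M) =
        ∑ j, ((b.repr m j : ℚ) : ℂ) • B j := by
      apply Subtype.ext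
      rw [AddSubmonoidClass.coe_finsetSum]
      conv_lhs => rw [← b.sum_repr m, AddSubmonoidClass.coe_finsetSum]
      refine Finset.sum_congr rfl fun j _ => ?_
      rw [hB, Submodule.coe_smul, Submodule.coe_smul, ratC_smul]
    rw [h4, map_sum, Finset.sum_apply']
    simp [Finsupp.single_apply]
  refine ⟨∑ i, b.repr ⟨(f (v i) : S.W), hf _ (b i).2⟩ i, ?_⟩
  rw [LinearMap.trace_eq_matrix_trace ℂ B, Matrix.trace]
  push_cast
  refine Finset.sum_congr rfl fun i _ => ?_
  rw [Matrix.diag_apply, LinearMap.toMatrix_apply, hB, ← hrat]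

section mult

variable {L : Type} [Field L] (ι : L →+* Module.End ℂ (S.cx M))

/-- an operator which commutes with the multiplication preserves the eigenspaces -/
theorem eig_stable (X : Module.End ℂ S.W) (hX : ∀ x ∈ S.cx M, X x ∈ S.cx M)
    (hc : ∀ a, ∀ x : S.cx M, X (ι a x : S.W) = (ι a ⟨X x, hX x x.2⟩ : S.W)) (τ : L →+* ℂ) :
    ∀ x ∈ eig ι τ, X x ∈ eig ι τ := by
  intro x hx
  obtain ⟨h, h1⟩ := (mem_eig ι).1 hx
  refine (mem_eig ι).2 ⟨hX x h, fun a => ?_⟩
  apply Subtype.ext
  rw [← hc a ⟨x, h⟩, h1 a]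
  simp

variable [NumberField L]

/-- The trace on an eigenspace. -/
theorem trOn_eig (X : Module.End ℂ S.W) (hX : ∀ x ∈ S.cx M, X x ∈ S.cx M)
    (hc : ∀ a, ∀ x : S.cx M, X (ι a x : S.W) = (ι a ⟨X x, hX x x.2⟩ : S.W)) (τ : L →+* ℂ) :
    trOn X (eig ι τ) = ∑ i, τ (bad L i) *
      LinearMap.trace ℂ (S.cx M) (X.restrict hX * ι (bas L i)) := by
  classical
  rw [trOn_of_stable (eig_stable ι X hX hc τ)]
  let V : Submodule ℂ (S.cx M) := ⨅ a, Module.End.eigenspace (ι a) (τ a)
  have hVm : ∀ x : S.cx M, x ∈ V ↔ (x : S.W) ∈ eig ι τ := by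
    intro x
    rw [coe_mem_eig]
    simp only [V, Submodule.mem_iInf, Module.End.mem_eigenspace_iff]
  let e : V ≃ₗ[ℂ] eig ι τ :=
    Submodule.equivMapOfInjective (S.cx M).subtype (Subtype.val_injective) V
  have he : ∀ x : V, ((e x : eig ι τ) : S.W) = ((x : S.cx M) : S.W) := fun x => rfl
  let Y : Module.End ℂ (S.cx M) := X.restrict hX
  have hY : ∀ x, ((Y x : S.cx M) : S.W) = X x := fun x => rfl
  have hYV : ∀ x ∈ V, Y x ∈ V := by
    intro x hx
    rw [hVm] at hx ⊢
    exact eig_stable ι X hX hc τ _ hx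
  have h1 : LinearMap.trace ℂ (eig ι τ) (X.restrict (eig_stable ι X hX hc τ)) =
      LinearMap.trace ℂ V (Y.restrict hYV) := by
    rw [← LinearMap.trace_conj' (Y.restrict hYV) e]
    congr 1
    ext x
    rw [LinearEquiv.conj_apply_apply, he]
    have h2 : ((e (e.symm x) : eig ι τ) : S.W) = (x : S.W) := by rw [LinearEquiv.apply_symm_apply]
    rw [he] at h2
    rw [LinearMap.coe_restrict_apply, LinearMap.coe_restrict_apply, hY, h2]
  have hpV : ∀ x, (Y * prj ι τ) x ∈ V := by
    intro x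
    apply hYV
    rw [hVm]
    exact prj_mem_eig ι τ x
  have h2 : LinearMap.trace ℂ V (Y.restrict hYV) =
      LinearMap.trace ℂ V ((Y * prj ι τ).restrict (fun x _ => hpV x)) := by
    congr 1
    ext x
    change ((Y (x : S.cx M) : S.cx M) : S.W) = ((Y (prj ι τ (x : S.cx M)) : S.cx M) : S.W)
    rw [prj_of_eig ι τ τ ((hVm _).1 x.2), if_pos rfl]
  rw [h1, h2, LinearMap.trace_restrict_eq_of_forall_mem V (Y * prj ι τ) hpV, prj,
    Finset.mul_sum, map_sum]
  refine Finset.sum_congr rfl fun i _ => ?_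
  rw [mul_smul_comm, map_smul, smul_eq_mul]

/-- (N6) Traces of rational operators on the eigenspaces are conjugate. -/
theorem exists_trace (hM : IsSub S M) (hι : ∀ a, IsEnd S M (ι a))
    (X : Module.End ℂ S.W) (hX : ∀ x ∈ S.cx M, X x ∈ S.cx M) (hr : ∀ b ∈ S.B, X b ∈ S.B)
    (hc : ∀ a, ∀ x : S.cx M, X (ι a x : S.W) = (ι a ⟨X x, hX x x.2⟩ : S.W)) :
    ∃ t : L, ∀ τ : L →+* ℂ, trOn X (eig ι τ) = τ t := by
  have h1 : ∀ a, ∃ q : ℚ, LinearMap.trace ℂ (S.cx M) (X.restrict hX * ι a) = q := by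
    intro a
    apply trace_rat hM.le
    intro x hx
    have h2 := (hι a).betti x hx
    exact mem_of_cx hM.le (hX _ (ι a x).2) (hr _ (hM.le h2))
  choose q hq using h1
  let φ : L →ₗ[ℚ] ℚ :=
    { toFun := q
      map_add' := fun a b => by
        have h2 : ((q (a + b) : ℚ) : ℂ) = ((q a + q b : ℚ) : ℂ) := by
          push_cast
          rw [← hq, ← hq, ← hq, map_add, mul_add, map_add]
        exact_mod_cast h2
      map_smul' := fun r a => by
        have h2 : ((q (r • a) : ℚ) : ℂ) = ((r * q a : ℚ) : ℂ) := by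
          push_cast
          have h3 : ι (r • a) = (r : ℂ) • ι a := by
            ext x
            rw [iota_rat]
            rfl
          rw [← hq, ← hq, h3, mul_smul_comm, map_smul, smul_eq_mul]
        exact_mod_cast h2 }
  obtain ⟨t, ht⟩ := functional_trace L φ
  refine ⟨t, fun τ => ?_⟩
  rw [trOn_eig ι X hX hc τ]
  conv_rhs => rw [bad_exp L t, map_sum]
  refine Finset.sum_congr rfl fun i _ => ?_
  have h2 : q (bas L i) = Algebra.trace ℚ L (t * bas L i) := ht (bas L i)
  rw [emb_rat_smul, hq, h2, mul_comm]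

/-- All eigenspaces have the same dimension. -/
theorem finrank_eig (hM : IsSub S M) (hι : ∀ a, IsEnd S M (ι a)) (τ τ' : L →+* ℂ) :
    finrank ℂ (eig ι τ) = finrank ℂ (eig ι τ') := by
  obtain ⟨t, ht⟩ := exists_trace ι hM hι 1 (fun _ h => h) (fun _ h => h) (fun _ _ => rfl)
  have h1 : ∀ τ : L →+* ℂ, τ t = (finrank ℂ (eig ι τ) : ℂ) := by
    intro τ
    rw [← ht τ, trOn_one]
  have h2 : t = (finrank ℂ (eig ι τ) : L) := by
    apply τ.injective
    rw [h1 τ, map_natCast]
  have h3 := h1 τ'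
  rw [h2, map_natCast] at h3
  exact_mod_cast h3

end mult

/-- (N5) A rational natural derivation which acts centrally gives endomorphisms. -/
theorem isEnd_restrict (P : Pol S) (hM : IsSub S M) {T : (R : Str) → Module.End ℂ R.W}
    (hT : IsNat T) (hr : ∀ b ∈ S.B, T S b ∈ S.B)
    (hc : ∀ A : (R : Str) → Module.End ℂ R.W, IsNat A → ∀ x, T S (A S x) = A S (T S x)) :
    IsEnd S M ((T S).restrict (nat_cx P hM hT)) where
  betti x hx := mem_of_cx hM.le (nat_cx P hM hT x x.2) (hr _ (hM.le hx))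
  deRham x hx := by
    apply maps_D_of_A (S := S) (R := S) (T S) hr
    · intro δ w
      exact (hc _ (isNat_A δ) w).symm
    · exact hx
  hodge p x hx := by
    have h1 := hc _ DT.isNat_hOp (x : S.W)
    have h2 : DT.hOp S (x : S.W) = (p : ℂ) • (x : S.W) := DT.hodgeEnd_apply S _ p _ hx
    rw [h2, map_smul] at h1
    -- the eigenspace of the Hodge operator
    obtain ⟨u, -, hu2, hxu⟩ := hodge_comp (S := S) (U := ⊤) (by
      simp only [top_inf_eq]
      rw [S.hodge_internal.submodule_iSup_eq_top]) (Submodule.mem_top (x := T S (x : S.W)))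
    have h3 : DT.hOp S (T S (x : S.W)) = ∑ q ∈ Finset.range (S.wt + 1), (q : ℂ) • u q := by
      rw [hxu, map_sum]
      exact Finset.sum_congr rfl fun q _ => DT.hodgeEnd_apply S _ q _ (hu2 q)
    have h4 : ∑ q ∈ Finset.range (S.wt + 1), ((q : ℂ) - p) • u q = 0 := by
      simp only [sub_smul, Finset.sum_sub_distrib]
      rw [← h3, ← Finset.smul_sum, ← hxu, ← h1, sub_self]
    have h5 : ∀ q ∈ Finset.range (S.wt + 1), ((q : ℂ) - p) • u q = 0 := by
      have hind := S.hodge_internal.submodule_iSupIndep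
      intro q hq
      exact (iSupIndep_iff_finsetSum_eq_zero_imp_eq_zero _).1 hind _ _
        (fun q _ => (S.hodge q).smul_mem _ (hu2 q)) h4 q hq
    change T S (x : S.W) ∈ S.hodge p
    rw [hxu]
    refine Submodule.sum_mem _ fun q hq => ?_
    by_cases hqp : q = p
    · rw [← hqp]
      exact hu2 q
    · have h6 := h5 q hq
      have h7 : (q : ℂ) - p ≠ 0 := sub_ne_zero.2 (by exact_mod_cast hqp)
      rw [(smul_eq_zero.1 h6).resolve_left h7]
      exact zero_mem _

end GD
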