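import Mathlib
import Pool.Agent.H44.GD.Tr

/-!
# Determinants of periods and the Legendre relation
-/

noncomputable section

namespace GD

open Complex Module

variable {S : Str} {M : Submodule ℚ S.W}

theorem span_Bbar_le (hM : M ≤ S.B) {w : S.W} (hw : w ∈ Submodule.span Qbar (M : Set S.W)) :
    w ∈ S.Bbar := Submodule.span_mono hM hw

/-- The matrix form of `trace_A`. -/
theorem trace_A_matrix (δ : Derivation Qbar ℂ ℂ) (U : Submodule ℂ S.W) {n : ℕ}
    (v ω : Fin n → S.W) (Φ : Matrix (Fin n) (Fin n) ℂ) (hv : LinearIndependent ℂ v)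
    (hvs : Submodule.span ℂ (Set.range v) = U) (hω : LinearIndependent ℂ ω)
    (hωs : Submodule.span ℂ (Set.range ω) = U) (hvB : ∀ j, v j ∈ S.Bbar) (hωD : ∀ j, ω j ∈ S.D)
    (hΦ : ∀ i, ω i = ∑ j, Φ i j • v j) :
    Φ.det ≠ 0 ∧ trOn (S.A δ) U = δ Φ.det / Φ.det := by
  classical
  subst hvs
  let b : Basis (Fin n) ℂ (Submodule.span ℂ (Set.range v)) := Basis.span hv
  have hb : ∀ i, (b i : S.W) = v i := fun i => congrArg Subtype.val (Basis.span_apply hv i)
  let b' : Basis (Fin n) ℂ (Submodule.span ℂ (Set.range ω)) := Basis.span hω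
  let e : Submodule.span ℂ (Set.range ω) ≃ₗ[ℂ] Submodule.span ℂ (Set.range v) :=
    LinearEquiv.ofEq _ _ hωs
  let w : Basis (Fin n) ℂ (Submodule.span ℂ (Set.range v)) := b'.map e
  have hw : ∀ i, (w i : S.W) = ω i := by
    intro i
    rw [Basis.map_apply]
    change ((b' i : _) : S.W) = ω i
    exact congrArg Subtype.val (Basis.span_apply hω i)
  have hmat : b.toMatrix w = Φ.transpose := by
    ext i j
    rw [Basis.toMatrix_apply, Matrix.transpose_apply]
    have h1 : w j = ∑ l, Φ j l • b l := by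
      apply Subtype.ext
      rw [hw, hΦ j, AddSubmonoidClass.coe_finsetSum]
      refine Finset.sum_congr rfl fun l _ => ?_
      rw [Submodule.coe_smul, hb]
    rw [h1, map_sum, Finset.sum_apply']
    simp [Finsupp.single_apply]
  have hdet : (b.toMatrix w).det = Φ.det := by rw [hmat, Matrix.det_transpose]
  have hne : Φ.det ≠ 0 := by
    rw [← hdet]
    have h1 := Basis.toMatrix_mul_toMatrix_flip b w
    intro h0
    have h2 := congrArg Matrix.det h1
    rw [Matrix.det_mul, h0, zero_mul, Matrix.det_one] at h2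
    exact zero_ne_one h2
  refine ⟨hne, ?_⟩
  -- stability
  have hst : ∀ x ∈ Submodule.span ℂ (Set.range v), S.A δ x ∈ Submodule.span ℂ (Set.range v) := by
    have hB : ∀ x ∈ Submodule.span ℂ (Set.range v),
        S.nabB δ x ∈ Submodule.span ℂ (Set.range v) := by
      intro x hx
      induction hx using Submodule.span_induction with
      | mem x hx =>
        obtain ⟨i, rfl⟩ := hx
        rw [S.nabB_Bbar δ (hvB i)]
        exact zero_mem _
      | zero =>
        rw [map_zero]
        exact zero_mem _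
      | add x y _ _ hx hy =>
        rw [map_add]
        exact add_mem hx hy
      | smul a x hx' hx =>
        rw [S.nabB_smul]
        exact add_mem (Submodule.smul_mem _ _ hx') (Submodule.smul_mem _ _ hx)
    have hD : ∀ x ∈ Submodule.span ℂ (Set.range ω),
        S.nabD δ x ∈ Submodule.span ℂ (Set.range ω) := by
      intro x hx
      induction hx using Submodule.span_induction with
      | mem x hx =>
        obtain ⟨i, rfl⟩ := hx
        rw [S.nabD_D δ (hωD i)]
        exact zero_mem _
      | zero =>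
        rw [map_zero]
        exact zero_mem _
      | add x y _ _ hx hy =>
        rw [map_add]
        exact add_mem hx hy
      | smul a x hx' hx =>
        rw [S.nabD_smul]
        exact add_mem (Submodule.smul_mem _ _ hx') (Submodule.smul_mem _ _ hx)
    intro x hx
    rw [S.A_apply]
    refine sub_mem (hB x hx) ?_
    rw [← hωs] at hx ⊢
    exact hD x hx
  rw [trOn_of_stable hst, trace_A δ _ b w (fun i => by rw [hb]; exact hvB i)
    (fun i => by rw [hw]; exact hωD i) hst, hdet]

theorem cx_of_Qbar {w : S.W} (hw : w ∈ Submodule.span Qbar (M : Set S.W)) : w ∈ S.cx M := by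
  induction hw using Submodule.span_induction with
  | mem z hz => exact Submodule.subset_span hz
  | zero => exact zero_mem _
  | add z z' _ _ h1 h2 => exact add_mem h1 h2
  | smul c z _ h1 => exact (S.cx M).smul_mem (c : ℂ) h1

theorem map_Qbar (f : Module.End ℂ (S.cx M))
    (hf : ∀ x : S.cx M, (x : S.W) ∈ M → (f x : S.W) ∈ M) {w : S.W}
    (hw : w ∈ Submodule.span Qbar (M : Set S.W)) (h : w ∈ S.cx M) :
    (f ⟨w, h⟩ : S.W) ∈ Submodule.span Qbar (M : Set S.W) := by
  induction hw using Submodule.span_induction with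
  | mem y hy => exact Submodule.subset_span (hf _ hy)
  | zero =>
    have : (⟨0, h⟩ : S.cx M) = 0 := rfl
    rw [this, map_zero]
    exact zero_mem _
  | add y y' hy hy' ih ih' =>
    have : (⟨y + y', h⟩ : S.cx M) = ⟨y, cx_of_Qbar hy⟩ + ⟨y', cx_of_Qbar hy'⟩ := rfl
    rw [this, map_add]
    exact add_mem (ih _) (ih' _)
  | smul c y hy ih =>
    have : (⟨c • y, h⟩ : S.cx M) = (c : ℂ) • ⟨y, cx_of_Qbar hy⟩ := rfl
    rw [this, map_smul]
    exact Submodule.smul_mem _ c (ih _)

section mult

variable {L : Type} [Field L] (ι : L →+* Module.End ℂ (S.cx M))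

/-- The logarithmic derivative of a determinant of periods. -/
theorem detPeriod_trace (hM : M ≤ S.B) {τ : L →+* ℂ} {z : ℂ} (hz : IsDetPeriod ι τ z) :
    z ≠ 0 ∧ ∀ δ : Derivation Qbar ℂ ℂ, trOn (S.A δ) (eig ι τ) = δ z / z := by
  obtain ⟨n, v, ω, Φ, hv, hvs, hω, hωs, hvB, hωD, hΦ, rfl⟩ := hz
  have h1 : ∀ δ : Derivation Qbar ℂ ℂ, Φ.det ≠ 0 ∧ trOn (S.A δ) (eig ι τ) = δ Φ.det / Φ.det :=
    fun δ => trace_A_matrix δ _ v ω Φ hv hvs hω hωs (fun j => span_Bbar_le hM (hvB j)) hωD hΦ
  exact ⟨(h1 0).1, fun δ => (h1 δ).2⟩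

variable [NumberField L]

/-- Choice of a basis of an eigenspace in a set of vectors stable under the projector. -/
theorem exists_basis_in (s : Set S.W) (hs : S.cx M ≤ Submodule.span ℂ (s ∩ (S.cx M : Set S.W)))
    (τ : L →+* ℂ) (hp : ∀ x : S.cx M, (x : S.W) ∈ s → (prj ι τ x : S.W) ∈ s) :
    ∃ v : Fin (finrank ℂ (eig ι τ)) → S.W, LinearIndependent ℂ v ∧
      Submodule.span ℂ (Set.range v) = eig ι τ ∧ ∀ j, v j ∈ s := by
  classical
  -- the generating set
  have h1 : Submodule.span ℂ (s ∩ (eig ι τ : Set S.W)) = eig ι τ := by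
    apply le_antisymm
    · rw [Submodule.span_le]
      exact fun x hx => hx.2
    · intro w hw
      obtain ⟨hwM, -⟩ := (mem_eig ι).1 hw
      let Q : S.cx M →ₗ[ℂ] S.W := (S.cx M).subtype.comp (prj ι τ)
      have h2 : ∀ (w : S.W) (h : w ∈ S.cx M), Q ⟨w, h⟩ ∈
          Submodule.span ℂ (s ∩ (eig ι τ : Set S.W)) := by
        intro w h
        have h3 : (⟨w, h⟩ : S.cx M) ∈ Submodule.span ℂ {x : S.cx M | (x : S.W) ∈ s} := by
          have h4 := hs h
          have h5 : Submodule.span ℂ (s ∩ (S.cx M : Set S.W)) =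
              (Submodule.span ℂ {x : S.cx M | (x : S.W) ∈ s}).map (S.cx M).subtype := by
            rw [Submodule.map_span]
            congr 1
            ext y
            constructor
            · rintro ⟨hy1, hy2⟩
              exact ⟨⟨y, hy2⟩, hy1, rfl⟩
            · rintro ⟨x, hx, rfl⟩
              exact ⟨hx, x.2⟩
          rw [h5] at h4
          obtain ⟨y, hy, hyw⟩ := h4
          have : y = ⟨w, h⟩ := Subtype.ext hyw
          rwa [this] at hy
        have h4 : (Submodule.span ℂ {x : S.cx M | (x : S.W) ∈ s}).map Q ≤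
            Submodule.span ℂ (s ∩ (eig ι τ : Set S.W)) := by
          rw [Submodule.map_span, Submodule.span_le]
          rintro _ ⟨x, hx, rfl⟩
          exact Submodule.subset_span ⟨hp x hx, prj_mem_eig ι τ x⟩
        exact h4 (Submodule.mem_map_of_mem h3)
      have h3 := h2 w hwM
      have h4 : Q ⟨w, hwM⟩ = w := by
        have h5 : (⟨w, hwM⟩ : S.cx M).1 ∈ eig ι τ := hw
        have h6 := prj_of_eig ι τ τ h5
        rw [if_pos rfl] at h6
        change ((prj ι τ ⟨w, hwM⟩ : S.cx M) : S.W) = w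
        rw [h6]
      rwa [h4] at h3
  obtain ⟨b, hb1, hb2, hb3⟩ := exists_linearIndependent ℂ (s ∩ (eig ι τ : Set S.W))
  rw [h1] at hb2
  haveI : Fintype b := (LinearIndependent.setFinite hb3).fintype
  have hcard : Fintype.card b = finrank ℂ (eig ι τ) := by
    have h2 := finrank_span_eq_card hb3
    rw [Subtype.range_coe, hb2] at h2
    exact h2.symm
  let e : Fin (finrank ℂ (eig ι τ)) ≃ b := (Fintype.equivFinOfCardEq hcard).symm
  refine ⟨fun i => (e i : S.W), hb3.comp _ e.injective, ?_, fun j => (hb1 (e j).2).1⟩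
  have h2 : Set.range (fun i => (e i : S.W)) = b := by
    ext y
    constructor
    · rintro ⟨i, rfl⟩
      exact (e i).2
    · intro hy
      exact ⟨e.symm ⟨y, hy⟩, by simp⟩
  rw [h2, hb2]

/-- Existence of determinants of periods. -/
theorem exists_detPeriod (hM : IsSub S M) (hι : ∀ a, IsEnd S M (ι a)) (τ : L →+* ℂ) :
    ∃ z, IsDetPeriod ι τ z := by
  classical
  have hcoe : ∀ x : S.cx M, (prj ι τ x : S.W) = ∑ i, τ (bad L i) • (ι (bas L i) x : S.W) := by
    intro x
    rw [prj_apply, AddSubmonoidClass.coe_finsetSum]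
    rfl
  have halg : ∀ i, τ (bad L i) ∈ Qbar := fun i => mem_algebraicClosure_iff.2 (emb_alg L τ _)
  obtain ⟨v, hv, hvs, hvB⟩ := exists_basis_in ι (Submodule.span Qbar (M : Set S.W) : Set S.W)
    (by
      change Submodule.span ℂ (M : Set S.W) ≤ _
      exact Submodule.span_mono fun x hx => ⟨Submodule.subset_span hx, Submodule.subset_span hx⟩)
    τ (by
      intro x hx
      have h2 : ∀ a, (ι a x : S.W) ∈ Submodule.span Qbar (M : Set S.W) :=
        fun a => map_Qbar (ι a) (hι a).betti hx x.2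
      rw [hcoe]
      exact Submodule.sum_mem _ fun i _ =>
        Submodule.smul_mem _ (⟨_, halg i⟩ : Qbar) (h2 _))
  obtain ⟨ω, hω, hωs, hωD⟩ := exists_basis_in ι (S.D : Set S.W)
    (by
      refine hM.deRham.trans (Submodule.span_mono ?_)
      exact fun x hx => hx)
    τ (by
      intro x hx
      rw [hcoe]
      exact Submodule.sum_mem _ fun i _ =>
        S.D.smul_mem (⟨_, halg i⟩ : Qbar) ((hι _).deRham x hx))
  have hP : ∀ i, ∃ c : Fin (finrank ℂ (eig ι τ)) → ℂ, ∑ j, c j • v j = ω i := by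
    intro i
    apply (Submodule.mem_span_range_iff_exists_fun ℂ).1
    rw [hvs, ← hωs]
    exact Submodule.subset_span ⟨i, rfl⟩
  choose Φ hΦ using hP
  exact ⟨_, _, v, ω, Φ, hv, hvs, hω, hωs, hvB, hωD, fun i => (hΦ i).symm, rfl⟩

end mult

end GD
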