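import Mathlib
import Pool.Agent.H44.GD.Per

/-!
# The Legendre relation for determinants
-/

noncomputable section

namespace GD

open Complex Module NumberField

variable {S : Str} {M : Submodule ℚ S.W}

/-- A rational operator commutes with the complex conjugation. -/
theorem conj_end (hM : M ≤ S.B) (f : Module.End ℂ (S.cx M))
    (hf : ∀ x : S.cx M, (x : S.W) ∈ M → (f x : S.W) ∈ M) {w : S.W} (hw : w ∈ S.cx M) :
    S.conj (f ⟨w, hw⟩ : S.W) = (f ⟨S.conj w, conj_cx hM hw⟩ : S.W) := by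
  induction hw using Submodule.span_induction with
  | mem y hy =>
    have h1 : (⟨S.conj y, conj_cx hM (Submodule.subset_span hy)⟩ : S.cx M) =
        ⟨y, Submodule.subset_span hy⟩ := Subtype.ext (S.conj_B y (hM hy))
    rw [h1, S.conj_B _ (hM (hf _ hy))]
  | zero =>
    have h0 : (⟨0, zero_mem _⟩ : S.cx M) = 0 := rfl
    have h1 : (⟨S.conj 0, conj_cx hM (zero_mem _)⟩ : S.cx M) = 0 := Subtype.ext (map_zero _)
    rw [h0, h1, map_zero]
    exact map_zero S.conj
  | add y y' hy hy' ih ih' =>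
    have h0 : (⟨y + y', add_mem hy hy'⟩ : S.cx M) = ⟨y, hy⟩ + ⟨y', hy'⟩ := rfl
    have h1 : (⟨S.conj (y + y'), conj_cx hM (add_mem hy hy')⟩ : S.cx M) =
        ⟨S.conj y, conj_cx hM hy⟩ + ⟨S.conj y', conj_cx hM hy'⟩ := Subtype.ext (map_add _ _ _)
    rw [h0, h1, map_add, map_add, Submodule.coe_add, Submodule.coe_add, map_add, ih, ih']
  | smul c y hy ih =>
    have h0 : (⟨c • y, Submodule.smul_mem _ c hy⟩ : S.cx M) = c • ⟨y, hy⟩ := rfl
    have h1 : (⟨S.conj (c • y), conj_cx hM (Submodule.smul_mem _ c hy)⟩ : S.cx M) =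
        (starRingEnd ℂ c) • ⟨S.conj y, conj_cx hM hy⟩ :=
      Subtype.ext (LinearMap.map_smulₛₗ S.conj c y)
    rw [h0, h1, map_smul, map_smul, Submodule.coe_smul, Submodule.coe_smul,
      LinearMap.map_smulₛₗ, ih]

section mult

variable {L : Type} [Field L] (ι : L →+* Module.End ℂ (S.cx M))

theorem conj_eig (hM : M ≤ S.B) (hι : ∀ a, IsEnd S M (ι a)) {τ : L →+* ℂ} {w : S.W}
    (hw : w ∈ eig ι τ) : S.conj w ∈ eig ι (ComplexEmbedding.conjugate τ) := by
  obtain ⟨h, h1⟩ := (mem_eig ι).1 hw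
  refine (mem_eig ι).2 ⟨conj_cx hM h, fun a => ?_⟩
  apply Subtype.ext
  rw [← conj_end hM (ι a) (hι a).betti h, h1 a, Submodule.coe_smul, LinearMap.map_smulₛₗ]
  rfl

variable [NumberField L]

/-- The eigenspaces are sub-Hodge. -/
theorem eig_hodge (hM : IsSub S M) (hι : ∀ a, IsEnd S M (ι a)) (τ : L →+* ℂ) :
    eig ι τ ≤ ⨆ p, eig ι τ ⊓ S.hodge p := by
  classical
  intro w hw
  obtain ⟨h, -⟩ := (mem_eig ι).1 hw
  obtain ⟨u, hu1, hu2, hwu⟩ := hodge_comp hM.hodge h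
  have h1 : (⟨w, h⟩ : S.cx M) = ∑ p ∈ Finset.range (S.wt + 1), ⟨u p, hu1 p⟩ := by
    apply Subtype.ext
    rw [AddSubmonoidClass.coe_finsetSum]
    exact hwu
  have h2 : w = ∑ p ∈ Finset.range (S.wt + 1), (prj ι τ ⟨u p, hu1 p⟩ : S.W) := by
    have h3 : (prj ι τ ⟨w, h⟩ : S.W) = w := by
      have h5 : (⟨w, h⟩ : S.cx M).1 ∈ eig ι τ := hw
      have h6 := prj_of_eig ι τ τ h5
      rw [if_pos rfl] at h6
      rw [h6]
    rw [← h3]
    conv_lhs => rw [h1, map_sum, AddSubmonoidClass.coe_finsetSum]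
  rw [h2]
  refine Submodule.sum_mem _ fun p _ => ?_
  apply Submodule.mem_iSup_of_mem p
  refine ⟨prj_mem_eig ι τ _, ?_⟩
  rw [prj_apply, AddSubmonoidClass.coe_finsetSum]
  refine Submodule.sum_mem _ fun i _ => ?_
  rw [Submodule.coe_smul]
  exact Submodule.smul_mem _ _ ((hι _).hodge p _ (hu2 p))

/-- The pairing of `eig τ` and `eig τbar` is nondegenerate. -/
theorem pair_nondeg (P : Pol S) (hM : IsSub S M) (hι : ∀ a, IsEnd S M (ι a)) {τ : L →+* ℂ}
    {x : S.W} (hx : x ∈ eig ι τ)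
    (h : ∀ y ∈ eig ι (ComplexEmbedding.conjugate τ), P.E x y = 0) : x = 0 := by
  obtain ⟨u, hu1, hu2, hxu⟩ := hodge_comp (eig_hodge ι hM hι τ) hx
  rw [hxu]
  refine Finset.sum_eq_zero fun p hp => ?_
  have hp' : p ≤ S.wt := by
    have := Finset.mem_range.1 hp
    omega
  apply pol_pos_ne P hp' (hu2 p)
  have h1 := pol_comp P hu2 hp (S.hodge_conj p hp' _ (hu2 p))
  rw [← hxu] at h1
  rw [← h1]
  exact h _ (conj_eig ι hM.le hι (hu1 p))

/-- The Legendre relation for traces. -/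
theorem leg_trace (P : Pol S) (hM : IsSub S M) (hι : ∀ a, IsEnd S M (ι a)) (τ : L →+* ℂ)
    {T : (R : Str) → Module.End ℂ R.W} (hT : IsNat T) :
    trOn (T S) (eig ι τ) + trOn (T S) (eig ι (ComplexEmbedding.conjugate τ)) =
      (finrank ℂ (eig ι τ) * S.wt : ℕ) * DT.cc T := by
  classical
  have hst : ∀ τ : L →+* ℂ, ∀ x ∈ eig ι τ, T S x ∈ eig ι τ := fun τ =>
    eig_stable ι (T S) (nat_cx P hM hT) (fun a x => nat_end P hM hT (hι a) x) τ
  rw [trOn_of_stable (hst τ), trOn_of_stable (hst _)]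
  let U := eig ι τ
  let V := eig ι (ComplexEmbedding.conjugate τ)
  let Φ : U →ₗ[ℂ] Module.Dual ℂ V :=
    { toFun := fun x => (P.E (x : S.W)).comp V.subtype
      map_add' := fun x y => by
        ext z
        simp
      map_smul' := fun c x => by
        ext z
        simp }
  have hΦ : ∀ (x : U) (y : V), Φ x y = P.E (x : S.W) (y : S.W) := fun _ _ => rfl
  have hinj : Function.Injective Φ := by
    rw [← LinearMap.ker_eq_bot, LinearMap.ker_eq_bot']
    intro x hx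
    apply Subtype.ext
    apply pair_nondeg ι P hM hι x.2
    intro y hy
    exact LinearMap.congr_fun hx ⟨y, hy⟩
  have hfr : finrank ℂ U = finrank ℂ V := finrank_eig ι hM hι _ _
  let Ψ : U ≃ₗ[ℂ] Module.Dual ℂ V :=
    LinearMap.linearEquivOfInjective Φ hinj (hfr.trans (Subspace.dual_finrank_eq).symm)
  have hΨ : ∀ (x : U), Ψ x = Φ x := fun _ => rfl
  let TU : Module.End ℂ U := (T S).restrict (hst τ)
  let TV : Module.End ℂ V := (T S).restrict (hst _)
  have hTU : ∀ x : U, ((TU x : U) : S.W) = T S x := fun _ => rfl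
  have hTV : ∀ x : V, ((TV x : V) : S.W) = T S x := fun _ => rfl
  let k : ℂ := S.wt * DT.cc T
  have key : Ψ.conj TU = Module.Dual.transpose (R := ℂ) (k • (1 : Module.End ℂ V) - TV) := by
    apply LinearMap.ext
    intro f
    obtain ⟨x, rfl⟩ := Ψ.surjective f
    rw [LinearEquiv.conj_apply_apply, LinearEquiv.symm_apply_apply]
    apply LinearMap.ext
    intro y
    rw [hΨ, hΦ, hTU, Module.Dual.transpose_apply, LinearMap.comp_apply, hΨ, hΦ]
    have h1 := DT.pol_der hT P (x : S.W) (y : S.W)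
    have h2 : (((k • (1 : Module.End ℂ V) - TV) y : V) : S.W) = k • (y : S.W) - T S y := rfl
    rw [h2, map_sub, map_smul, smul_eq_mul]
    linear_combination h1
  have h1 : LinearMap.trace ℂ U TU = k * finrank ℂ V - LinearMap.trace ℂ V TV := by
    rw [← LinearMap.trace_conj' TU Ψ, key, LinearMap.trace_transpose', map_sub, map_smul,
      smul_eq_mul]
    congr 2
    exact LinearMap.trace_one ℂ V
  change LinearMap.trace ℂ U TU + LinearMap.trace ℂ V TV = _
  rw [h1, ← hfr]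
  push_cast
  ring

/-- The class of `A δ` on the Tate structure. -/
theorem cc_A (δ : Derivation Qbar ℂ ℂ) : DT.cc (fun R => R.A δ) = cpi δ := by
  have hv : ((1 : ℂ) : (DT.Tate 1).W) ∈ (DT.Tate 1).Bbar := by
    apply Str.B_le_Bbar
    exact DT.mem_tate_B.2 ⟨1, by simp⟩
  have hD : (2 * (Real.pi : ℂ) * I) • ((1 : ℂ) : (DT.Tate 1).W) ∈ (DT.Tate 1).D := by
    apply DT.mem_tate_D.2
    refine ⟨1, ?_⟩
    change _ = (2 * (Real.pi : ℂ) * I) * 1
    simp
  have h1 := A_eigen δ hv two_pi_I_ne' hD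
  have h2 : DT.cc (fun R => R.A δ) = (DT.Tate 1).A δ ((1 : ℂ) : (DT.Tate 1).W) := rfl
  rw [h2, h1]
  change cpi δ * 1 = _
  rw [mul_one]

/-- The Legendre relation for determinants of periods. -/
theorem leg_period (P : Pol S) (hM : IsSub S M) (hι : ∀ a, IsEnd S M (ι a)) (τ : L →+* ℂ)
    {z z' : ℂ} (hz : IsDetPeriod ι τ z)
    (hz' : IsDetPeriod ι (ComplexEmbedding.conjugate τ) z') :
    Sim (z * z') ((2 * Real.pi * I) ^ (finrank ℂ (eig ι τ) * S.wt)) := by
  obtain ⟨h0, h1⟩ := detPeriod_trace ι hM.le hz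
  obtain ⟨h0', h1'⟩ := detPeriod_trace ι hM.le hz'
  have hp := pow_ne_zero (finrank ℂ (eig ι τ) * S.wt) two_pi_I_ne'
  refine ⟨mul_ne_zero h0 h0', hp, ?_⟩
  set N := finrank ℂ (eig ι τ) * S.wt with hN
  have hq : z * z' / (2 * Real.pi * I) ^ N ≠ 0 := div_ne_zero (mul_ne_zero h0 h0') hp
  apply isAlgebraic_of_der
  intro δ
  have h2 := leg_trace ι P hM hι τ (isNat_A δ)
  rw [cc_A] at h2
  have h2' : δ z / z + δ z' / z' = (N : ℂ) * cpi δ := by
    rw [← h1 δ, ← h1' δ]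
    exact h2
  have h3 := der_div_mul δ h0 h0'
  have h4 : z * z' = (z * z' / (2 * Real.pi * I) ^ N) * (2 * Real.pi * I) ^ N := by
    rw [div_mul_cancel₀ _ hp]
  have h5 := der_div_mul δ hq hp
  rw [← h4, h3, h2', der_two_pi_pow, mul_div_cancel_right₀ _ hp] at h5
  have h6 : δ (z * z' / (2 * Real.pi * I) ^ N) / (z * z' / (2 * Real.pi * I) ^ N) = 0 := by
    linear_combination -h5
  exact (div_eq_zero_iff.1 h6).resolve_right hq

end mult

end GD
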