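import Mathlib
import Pool.Agent.H44.GD.Leg
import Pool.Agent.H26.DT.Asm

/-!
# The trace of the Hodge operator; the Legendre relation for the data
-/

noncomputable section

namespace GD

open Complex Module NumberField

variable {S : Str}

/-- the projector onto a Hodge piece -/
def hpr (S : Str) (p : ℕ) : Module.End ℂ S.W := DT.hodgeEnd S fun q => if q = p then 1 else 0

theorem top_hodge (S : Str) : (⊤ : Submodule ℂ S.W) ≤ ⨆ p, (⊤ : Submodule ℂ S.W) ⊓ S.hodge p := by
  simp only [top_inf_eq]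
  rw [S.hodge_internal.submodule_iSup_eq_top]

theorem hpr_sum {u : ℕ → S.W} (hu : ∀ p, u p ∈ S.hodge p) (p : ℕ) :
    hpr S p (∑ q ∈ Finset.range (S.wt + 1), u q) =
      if p ∈ Finset.range (S.wt + 1) then u p else 0 := by
  rw [map_sum]
  have h1 : ∀ q ∈ Finset.range (S.wt + 1), hpr S p (u q) = if q = p then u q else 0 := by
    intro q _
    rw [hpr, DT.hodgeEnd_apply S _ q _ (hu q)]
    by_cases h : q = p
    · rw [if_pos h, if_pos h, one_smul]
    · rw [if_neg h, if_neg h, zero_smul]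
  rw [Finset.sum_congr rfl h1, Finset.sum_ite_eq']

theorem hOp_eq (S : Str) :
    DT.hOp S = ∑ q ∈ Finset.range (S.wt + 1), (q : ℂ) • hpr S q := by
  apply LinearMap.ext
  intro x
  obtain ⟨u, -, hu2, hxu⟩ := hodge_comp (top_hodge S) (Submodule.mem_top (x := x))
  rw [hxu, LinearMap.sum_apply, map_sum]
  have h1 : ∀ q ∈ Finset.range (S.wt + 1), DT.hOp S (u q) = (q : ℂ) • u q := fun q _ =>
    DT.hodgeEnd_apply S _ q _ (hu2 q)
  rw [Finset.sum_congr rfl h1]
  refine Finset.sum_congr rfl fun q hq => ?_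
  rw [LinearMap.smul_apply, hpr_sum hu2, if_pos hq]

theorem hpr_stable {U : Submodule ℂ S.W} (hU : U ≤ ⨆ p, U ⊓ S.hodge p) (p : ℕ) :
    ∀ x ∈ U, hpr S p x ∈ U := by
  intro x hx
  obtain ⟨u, hu1, hu2, hxu⟩ := hodge_comp hU hx
  rw [hxu, hpr_sum hu2]
  by_cases h : p ∈ Finset.range (S.wt + 1)
  · rw [if_pos h]
    exact hu1 p
  · rw [if_neg h]
    exact zero_mem _

theorem hpr_mem (p : ℕ) (x : S.W) : hpr S p x ∈ S.hodge p := by
  obtain ⟨u, -, hu2, hxu⟩ := hodge_comp (top_hodge S) (Submodule.mem_top (x := x))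
  rw [hxu, hpr_sum hu2]
  by_cases h : p ∈ Finset.range (S.wt + 1)
  · rw [if_pos h]
    exact hu2 p
  · rw [if_neg h]
    exact zero_mem _

theorem hpr_of_mem {p : ℕ} {x : S.W} (hx : x ∈ S.hodge p) : hpr S p x = x := by
  rw [hpr, DT.hodgeEnd_apply S _ p _ hx, if_pos rfl, one_smul]

theorem trOn_hpr {U : Submodule ℂ S.W} (hU : U ≤ ⨆ p, U ⊓ S.hodge p) (p : ℕ) :
    trOn (hpr S p) U = finrank ℂ (U ⊓ S.hodge p : Submodule ℂ S.W) := by
  rw [trOn_of_stable (hpr_stable hU p)]
  have h1 : LinearMap.IsProj ((S.hodge p).comap U.subtype)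
      ((hpr S p).restrict (hpr_stable hU p)) := by
    constructor
    · intro x
      exact hpr_mem p (x : S.W)
    · intro x hx
      exact Subtype.ext (hpr_of_mem hx)
  rw [h1.trace]
  have h2 : ((S.hodge p).comap U.subtype).map U.subtype = U ⊓ S.hodge p :=
    Submodule.map_comap_subtype _ _
  have h3 := LinearEquiv.finrank_eq (Submodule.equivMapOfInjective U.subtype
    Subtype.val_injective ((S.hodge p).comap U.subtype))
  rw [h3, h2]

/-- The trace of the Hodge operator. -/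
theorem trOn_hOp {U : Submodule ℂ S.W} (hU : U ≤ ⨆ p, U ⊓ S.hodge p) :
    trOn (DT.hOp S) U = ∑ p ∈ Finset.range (S.wt + 1),
      (p : ℂ) * finrank ℂ (U ⊓ S.hodge p : Submodule ℂ S.W) := by
  rw [hOp_eq, trOn_sum]
  · refine Finset.sum_congr rfl fun p _ => ?_
    rw [trOn_smul _ (hpr_stable hU p), trOn_hpr hU]
  · intro p _ x hx
    exact U.smul_mem _ (hpr_stable hU p x hx)

/-- The trace of the Hodge operator on an eigenspace is the Hodge type of the determinant. -/
theorem trOn_hOp_eig {M : Submodule ℚ S.W} {L : Type} [Field L] [NumberField L]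
    (ι : L →+* Module.End ℂ (S.cx M)) (hM : IsSub S M) (hι : ∀ a, IsEnd S M (ι a))
    (τ : L →+* ℂ) : trOn (DT.hOp S) (eig ι τ) = (detType ι τ : ℂ) := by
  rw [trOn_hOp (eig_hodge ι hM hι τ), detType]
  push_cast
  rfl

/-- Types of conjugate eigenspaces. -/
theorem leg_type {M : Submodule ℚ S.W} {L : Type} [Field L] [NumberField L]
    (ι : L →+* Module.End ℂ (S.cx M)) (P : Pol S) (hM : IsSub S M)
    (hι : ∀ a, IsEnd S M (ι a)) (τ : L →+* ℂ) :
    detType ι τ + detType ι (ComplexEmbedding.conjugate τ) = finrank ℂ (eig ι τ) * S.wt := by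
  have h1 := leg_trace ι P hM hι τ DT.isNat_hOp
  rw [trOn_hOp_eig ι hM hι, trOn_hOp_eig ι hM hι, DT.cc_hOp, mul_one] at h1
  exact_mod_cast h1

/-- The Legendre relation for the data. -/
theorem Datum.leg {C : Str → Prop} (hP : ∀ S, C S → Nonempty (Pol S)) {K : Type} [Field K]
    (D : Datum C K) : D.Leg := by
  obtain ⟨P⟩ := hP D.S D.mem
  refine ⟨fun τ => exists_detPeriod D.ι D.simple.sub D.central.isEnd τ, ?_⟩
  by_cases hne : Nonempty (D.L →+* ℂ)
  · obtain ⟨τ0⟩ := hne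
    refine ⟨finrank ℂ (eig D.ι τ0) * D.S.wt, fun τ => ⟨?_, ?_⟩⟩
    · rw [leg_type D.ι P D.simple.sub D.central.isEnd τ,
        finrank_eig D.ι D.simple.sub D.central.isEnd τ τ0]
    · intro z z' hz hz'
      rw [finrank_eig D.ι D.simple.sub D.central.isEnd τ0 τ]
      exact leg_period D.ι P D.simple.sub D.central.isEnd τ hz hz'
  · exact ⟨0, fun τ => absurd ⟨τ⟩ hne⟩

end GD
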