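import Pool.Agent.H44.GD.FamPow
import Pool.Agent.H26.DT.Conv

/-!
# Twisting a family to Tate type by structures with complex multiplication
-/

set_option autoImplicit false

noncomputable section

namespace GD

open Complex NumberField TensorProduct

/-- `R ⊗ Z₁ ⊗ ⋯ ⊗ Z_r`. -/
def tenL : Str → List Str → Str
  | R, [] => R
  | R, Z :: l => tenL (R.ten Z) l

theorem tenL_wt : ∀ (l : List Str) (R : Str), (tenL R l).wt = R.wt + (l.map Str.wt).sum
  | [], R => by simp [tenL]
  | Z :: l, R => by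
    have h1 : (tenL R (Z :: l)).wt = (tenL (R.ten Z) l).wt := rfl
    have h2 : (R.ten Z).wt = R.wt + Z.wt := rfl
    rw [h1, tenL_wt l, h2, List.map_cons, List.sum_cons]
    ring

theorem gen_tenL {C : Str → Prop} : ∀ (l : List Str) (R : Str), Gen C R → (∀ Z ∈ l, Gen C Z) →
    Gen C (tenL R l)
  | [], _, hR, _ => hR
  | Z :: l, R, hR, hl => gen_tenL l (R.ten Z) (gen_ten hR (hl Z List.mem_cons_self))
      fun Z' hZ' => hl Z' (List.mem_cons_of_mem _ hZ')

theorem mkT_inj (S T : Str) : Function.Injective (TensorProduct.lift (mkT S T)) := by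
  intro x y h
  have h1 := lift_mkT S T x
  have h2 := lift_mkT S T y
  exact h1.symm.trans (h.trans h2)

variable {K : Type} [Field K] [NumberField K]

/-- The tensor product of a family with a list of families. -/
theorem tenL_fam : ∀ (l : List (Σ Z : Str, Fam Z K)) {R : Str} (f : Fam R K),
    ∃ g : Fam (tenL R (l.map Sigma.fst)) K,
      (g.c = fun σ => f.c σ * (l.map fun z => z.2.c σ).prod) ∧
      g.p = fun σ => f.p σ + (l.map fun z => z.2.p σ).sum
  | [], R, f => ⟨f, by simp, by simp⟩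
  | z :: l, R, f => by
    obtain ⟨k, hk1, hk2⟩ := f.tensor z.2 (mkT R z.1) (mkT_inj R z.1) (isBil_mk R z.1).betti
      (isBil_mk R z.1).deRham (isBil_mk R z.1).hodge
    obtain ⟨g, hg1, hg2⟩ := tenL_fam l k
    refine ⟨g, ?_, ?_⟩
    · rw [hg1, hk1]
      funext σ
      simp only [List.map_cons, List.prod_cons]
      ring
    · rw [hg2, hk2]
      funext σ
      simp only [List.map_cons, List.sum_cons]
      ring

/-- One rational vector sees all eigenvectors. -/
theorem fam_sum_dR {S : Str} (f : Fam S K) (t : ℂ) :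
    t • ∑ σ, f.v σ ∈ S.D ↔ ∀ σ, t • f.v σ ∈ S.D := by
  constructor
  · intro h σ
    have hlin : LinearIndependent ℂ (fun σ => f.c σ • f.v σ) :=
      f.lin.units_smul (fun σ => Units.mk0 (f.c σ) (f.c_ne σ))
    have h1 : ∑ σ, (t / f.c σ) • (f.c σ • f.v σ) ∈ S.D := by
      have h2 : ∑ σ, (t / f.c σ) • (f.c σ • f.v σ) = t • ∑ σ, f.v σ := by
        rw [Finset.smul_sum]
        refine Finset.sum_congr rfl fun σ _ => ?_
        rw [smul_smul, div_mul_cancel₀ _ (f.c_ne σ)]
      rw [h2]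
      exact h
    have h3 : IsAlgebraic ℚ (t / f.c σ) := by
      apply isAlgebraic_of_der
      intro δ
      have h4 := S.nabD_D δ h1
      rw [map_sum] at h4
      have h5 : ∑ σ, δ (t / f.c σ) • (f.c σ • f.v σ) = 0 := by
        rw [← h4]
        refine Finset.sum_congr rfl fun σ _ => ?_
        rw [S.nabD_smul, S.nabD_D δ (f.dR σ), smul_zero, add_zero]
      exact Fintype.linearIndependent_iff.1 hlin _ h5 σ
    have h6 := S.D_smul h3 (f.dR σ)
    rwa [smul_smul, div_mul_cancel₀ _ (f.c_ne σ)] at h6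
  · intro h
    rw [Finset.smul_sum]
    exact Submodule.sum_mem _ fun σ _ => h σ

variable {V : Type*} [AddCommGroup V] [Module ℚ V] {cls : ℂ → V}

/-- For a family of Tate type the relation is the rationality of one vector. -/
theorem fam_tate_iff (hΓ : GammaSpec V cls) {S : Str} (g : Fam S K) (r : ℕ) :
    (∀ σ, cls (g.c σ) = (r : ℚ) • cls ((Real.pi : ℝ) : ℂ)) ↔
      (2 * Real.pi * I) ^ r • ∑ σ, g.v σ ∈ S.D := by
  rw [fam_sum_dR]
  refine forall_congr' fun σ => ?_
  constructor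
  · intro h
    rw [← cls_two_pi_I hΓ] at h
    have h5 := (sim_of_cls hΓ (g.c_ne σ) (two_pi_I_ne r) h).symm
    have h6 := S.D_smul h5.2.2 (g.dR σ)
    rwa [smul_smul, div_mul_cancel₀ _ h5.2.1] at h6
  · intro h
    have h3 := S.D_ratio (g.v_ne σ) (g.c_ne σ) (g.dR σ) h
    have h4 : Sim ((2 * (Real.pi : ℂ) * I) ^ r) (g.c σ) := ⟨two_pi_I_ne r, g.c_ne σ, h3⟩
    rw [← cls_of_sim hΓ h4, cls_two_pi_I hΓ]

/-- The relation for a family and for its twist of Tate type. -/
theorem relAll_twist (hΓ : GammaSpec V cls) {e : K →+* ℂ} {d : ℕ} [NeZero d]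
    (he : ∀ x, e x ∈ cyc d) (hd3 : 3 ≤ d) {R : Str} (f : Fam R K) (n : ℕ)
    (z : ℕ → Σ Z : Str, Fam Z K) (hwt : ∀ j, (z j).1.wt = 1)
    (hp : ∀ σ, f.p σ + ∑ j ∈ Finset.range n, (z j).2.p σ = n)
    (hz : ∀ j < n, RelAll cls d e he (z j).2.c (z j).2.p) :
    RelAll cls d e he f.c f.p ↔
      ∀ σ, cls (f.c σ * ∏ j ∈ Finset.range n, (z j).2.c σ) =
        (n : ℚ) • cls ((Real.pi : ℝ) : ℂ) := by
  classical
  choose εj hεj using fun j => ex' hΓ d hd3 1
    (fun l => (((z j).2.p (phi e he l) : ℕ) : ℚ)) (fun l => by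
      rw [← conj_phi]
      have h1 := (z j).2.p_add (phi e he l)
      rw [hwt] at h1
      exact_mod_cast h1)
  have hgj : ∀ j ∈ Finset.range n, ∀ l, cls ((z j).2.c (phi e he l)) =
      tsum' d (gam cls) (εj j) l :=
    fun j hj l => hz j (Finset.mem_range.1 hj) (εj j) (hεj j) l
  have key : ∀ ε : ZMod d → ℚ, (∀ l, tsum' d (fun x => x) ε l = f.p (phi e he l)) → ∀ l,
      (cls (f.c (phi e he l)) = tsum' d (gam cls) ε l ↔
        cls (f.c (phi e he l) * ∏ j ∈ Finset.range n, (z j).2.c (phi e he l)) =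
          (n : ℚ) • cls ((Real.pi : ℝ) : ℂ)) := by
    intro ε hε l
    have htot : ∀ l, tsum' d (fun x => x) (fun a => ε a + ∑ j ∈ Finset.range n, εj j a) l = n := by
      intro l
      rw [tsum_add, hε, tsum_sum]
      have h2 : ∑ j ∈ Finset.range n, tsum' d (fun x => x) (εj j) l
          = ∑ j ∈ Finset.range n, (((z j).2.p (phi e he l) : ℕ) : ℚ) :=
        Finset.sum_congr rfl fun j _ => hεj j l
      rw [h2]
      exact_mod_cast hp (phi e he l)
    have hgtot := gam_const hΓ d n _ htot (by omega) l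
    rw [tsum_add, tsum_sum] at hgtot
    rw [hΓ.mul _ _ (f.c_ne _) (Finset.prod_ne_zero_iff.2 fun j _ => (z j).2.c_ne _),
      cls_prod hΓ _ _ (fun j _ => (z j).2.c_ne _), ← hgtot,
      Finset.sum_congr rfl fun j hj => hgj j hj l]
    exact (add_left_inj _).symm
  constructor
  · intro h σ
    obtain ⟨l, rfl⟩ := exists_phi e he σ
    obtain ⟨ε, hε⟩ := ex' hΓ d hd3 R.wt (fun l => (f.p (phi e he l) : ℚ)) (fun l => by
      rw [← conj_phi]
      exact_mod_cast f.p_add (phi e he l))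
    exact (key ε hε l).1 (h ε hε l)
  · intro h ε hε l
    exact (key ε hε l).2 (h _)

/-- Every family over an imaginary cyclic field becomes of Tate type after multiplication by
families of weight one with complex multiplication, and its relation becomes the de Rham property
of the eigenvectors. -/
theorem exists_twist_fam {CM : Str → Prop} (hCM : HasCM CM) (e : K →+* ℂ)
    (hex : ∃ d, LiesIn e d) (him : ∃ x, (e x).im ≠ 0) (hGal : IsGalois ℚ K)
    (hcyc : IsCyclic (K ≃ₐ[ℚ] K)) {R : Str} (f : Fam R K) :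
    ∃ l : List Str, l.length = R.wt ∧ (∀ Z ∈ l, CM Z ∧ Z.wt = 1) ∧
      ∃ g : Fam (tenL R l) K, (g.p = fun _ => R.wt) ∧
        ((∀ Z ∈ l, ∀ A : Adm Z K, Relation A e) →
          ∀ (d : ℕ) [NeZero d] (he : ∀ x, e x ∈ cyc d),
          ((∀ σ, (2 * Real.pi * I) ^ R.wt • g.v σ ∈ (tenL R l).D) ↔
            RelAll Pool.Agent.H11.GD.cls d e he f.c f.p)) := by
  classical
  have hc := liesIn_conductor hex
  have hne : NeZero (conductor e) := ⟨hc.1.ne'⟩
  have hd3 := three_le hc.2 him
  obtain ⟨Φ, hΦ1, hΦ2⟩ := exists_types (no_real e hc.2 him) R.wt f.p (fun σ => f.p_add σ)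
  have hex2 : ∀ j, ∃ z : Σ Z : Str, Fam Z K, CM z.1 ∧ z.1.wt = 1 ∧ z.2.p = typ (Φ j) := by
    intro j
    obtain ⟨S, hS, hwt, A, hA1, hA0⟩ := hCM K e hex him hGal hcyc (Φ j) (hΦ1 j)
    have hTy : A.HasType (typ (Φ j)) := by
      intro σ
      unfold typ
      by_cases hσ : σ ∈ Φ j
      · rw [if_pos hσ]
        exact hA1 σ hσ
      · rw [if_neg hσ]
        exact hA0 σ hσ
    obtain ⟨g, -, hgp⟩ := A.exists_fam _ hTy
    exact ⟨⟨S, g⟩, hS, hwt, hgp⟩
  choose z hz1 hz2 hz3 using hex2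
  obtain ⟨g, hg1, hg2⟩ := tenL_fam ((List.range R.wt).map z) f
  have hlist : ((List.range R.wt).map z).map Sigma.fst = (List.range R.wt).map fun j => (z j).1 := by
    rw [List.map_map]
    rfl
  have hprod : ∀ σ, g.c σ = f.c σ * ∏ j ∈ Finset.range R.wt, (z j).2.c σ := by
    intro σ
    rw [hg1]
    change f.c σ * (((List.range R.wt).map z).map fun z => z.2.c σ).prod = _
    rw [List.map_map]
    rfl
  have hp : ∀ σ, f.p σ + ∑ j ∈ Finset.range R.wt, (z j).2.p σ = R.wt := by
    intro σ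
    have h1 : ∑ j ∈ Finset.range R.wt, (z j).2.p σ = ∑ j ∈ Finset.range R.wt, typ (Φ j) σ :=
      Finset.sum_congr rfl fun j _ => by rw [hz3]
    rw [h1, hΦ2 σ]
  have hsum : ∀ σ, g.p σ = R.wt := by
    intro σ
    rw [hg2]
    change f.p σ + (((List.range R.wt).map z).map fun z => z.2.p σ).sum = _
    rw [List.map_map]
    exact hp σ
  refine ⟨((List.range R.wt).map z).map Sigma.fst, by simp, ?_, g, funext hsum, ?_⟩
  · intro Z hZ
    rw [hlist, List.mem_map] at hZ
    obtain ⟨j, _, rfl⟩ := hZ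
    exact ⟨hz1 j, hz2 j⟩
  · intro hrel d _ he
    have hzr : ∀ j < R.wt, RelAll Pool.Agent.H11.GD.cls d e he (z j).2.c (z j).2.p := by
      intro j hj
      obtain ⟨A, hA, -⟩ := (z j).2.exists_adm
      have h1 := relationAt_to gammaSpec hA hc.2 (hrel (z j).1 (by
        rw [hlist, List.mem_map]
        exact ⟨j, List.mem_range.2 hj, rfl⟩) A (conductor e) rfl)
      exact h1.change gammaSpec hd3 he (fun σ => (z j).2.p_add σ)
    rw [relAll_twist gammaSpec he (three_le he him) f R.wt z hz2 hp hzr, ← fam_sum_dR,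
      ← fam_tate_iff gammaSpec g R.wt]
    exact forall_congr' fun σ => by rw [hprod]

/-- The relation for a family is the de Rham property of one Hodge class on the product with
structures of weight one with complex multiplication. -/
theorem exists_twist {CM : Str → Prop} (hCM : HasCM CM) (e : K →+* ℂ) (hex : ∃ d, LiesIn e d)
    (him : ∃ x, (e x).im ≠ 0) (hGal : IsGalois ℚ K) (hcyc : IsCyclic (K ≃ₐ[ℚ] K)) {R : Str}
    (f : Fam R K) :
    ∃ l : List Str, l.length = R.wt ∧ (∀ Z ∈ l, CM Z ∧ Z.wt = 1) ∧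
      ∃ h : (tenL R l).W, h ∈ (tenL R l).B ∧ h ∈ (tenL R l).hodge R.wt ∧
        ((∀ Z ∈ l, ∀ A : Adm Z K, Relation A e) →
          ((∀ A : Adm R K, Attached A f → Relation A e) ↔
            (2 * Real.pi * I) ^ R.wt • h ∈ (tenL R l).D)) := by
  have hc := liesIn_conductor hex
  have hne : NeZero (conductor e) := ⟨hc.1.ne'⟩
  obtain ⟨l, h1, h2, g, hg, h3⟩ := exists_twist_fam hCM e hex him hGal hcyc f
  refine ⟨l, h1, h2, ∑ σ, g.v σ, ?_, ?_, ?_⟩
  · have h1 := g.rat 1
    simpa using h1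
  · refine Submodule.sum_mem _ fun σ _ => ?_
    have h1 := g.hdg σ
    rwa [hg] at h1
  · intro hrel
    rw [fam_sum_dR, h3 hrel (conductor e) hc.2]
    constructor
    · intro h
      obtain ⟨A, hA, -⟩ := f.exists_adm
      exact relationAt_to gammaSpec hA hc.2 (h A hA (conductor e) rfl)
    · intro h A hA d _ hd
      subst hd
      exact relationAt_of gammaSpec hA hc.2 h

end GD
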